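import Mathlib

set_option autoImplicit false

open Metric Set MeasureTheory Topology
open scoped ENNReal NNReal

namespace Pool.Agent.MP_4045d2_lc

variable {E : Type} [NormedAddCommGroup E] [NormedSpace ℝ E]

lemma norm_add_bounds (p : closedBall (0 : E) (1 / 2)) (z : sphere (0 : E) 1) :
    1 / 2 ≤ ‖(z : E) + p‖ ∧ ‖(z : E) + p‖ ≤ 2 := by
  have hp : ‖(p : E)‖ ≤ 1 / 2 := by simpa using p.2
  have hz : ‖(z : E)‖ = 1 := by simpa using z.2
  have h1 : ‖(z : E)‖ ≤ ‖(z : E) + p‖ + ‖(p : E)‖ := by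
    simpa using norm_sub_le ((z : E) + p) p
  have h2 := norm_add_le (z : E) p
  constructor <;> linarith

/-- the radial projection of the shifted sphere -/
noncomputable def shiftFun (p : closedBall (0 : E) (1 / 2)) (z : sphere (0 : E) 1) :
    sphere (0 : E) 1 :=
  ⟨‖(z : E) + p‖⁻¹ • ((z : E) + p), by
    have h := (norm_add_bounds p z).1
    rw [mem_sphere_zero_iff_norm, norm_smul, norm_inv, norm_norm]
    exact inv_mul_cancel₀ (by linarith)⟩

lemma shiftFun_spec (p : closedBall (0 : E) (1 / 2)) (z : sphere (0 : E) 1) :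
    ‖(z : E) + p‖ • (shiftFun p z : E) = (z : E) + p := by
  have h := (norm_add_bounds p z).1
  simp only [shiftFun]
  rw [smul_smul, mul_inv_cancel₀ (by linarith), one_smul]

lemma continuous_shiftFun :
    Continuous (fun q : closedBall (0 : E) (1 / 2) × sphere (0 : E) 1 => shiftFun q.1 q.2) := by
  refine Continuous.subtype_mk ?_ _
  have h1 : Continuous (fun q : closedBall (0 : E) (1 / 2) × sphere (0 : E) 1 =>
      (q.2 : E) + (q.1 : E)) := by fun_prop
  refine Continuous.smul (Continuous.inv₀ h1.norm ?_) h1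
  intro q
  have h := (norm_add_bounds q.1 q.2).1
  intro h0
  linarith

/-- the family of shift maps -/
noncomputable def shift : C(closedBall (0 : E) (1 / 2), C(sphere (0 : E) 1, sphere (0 : E) 1)) :=
  ContinuousMap.curry ⟨_, continuous_shiftFun⟩

lemma shift_apply (p : closedBall (0 : E) (1 / 2)) (z : sphere (0 : E) 1) :
    shift p z = shiftFun p z := rfl

lemma aux_le (p z w : E) (a b : ℝ) (hp : ‖p‖ ≤ 1 / 2) (hz : ‖z‖ = 1) (hw : ‖w‖ = 1)
    (ha : 0 < a) (hab : a ≤ b) (h : b • (z + p) = a • (w + p)) : b ≤ a := by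
  have e : b • z = a • w - (b - a) • p := by
    linear_combination (norm := module) h
  have h1 : ‖b • z‖ = b := by
    rw [norm_smul, hz, Real.norm_of_nonneg (by linarith), mul_one]
  have h2 : ‖a • w‖ = a := by
    rw [norm_smul, hw, Real.norm_of_nonneg ha.le, mul_one]
  have h3 : ‖(b - a) • p‖ ≤ (b - a) * (1 / 2) := by
    rw [norm_smul, Real.norm_of_nonneg (by linarith)]
    exact mul_le_mul_of_nonneg_left hp (by linarith)
  have h4 := norm_sub_le (a • w) ((b - a) • p)
  rw [← e] at h4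
  linarith

lemma shift_injective (p : closedBall (0 : E) (1 / 2)) : Function.Injective (shift p) := by
  intro z w h
  rw [shift_apply, shift_apply] at h
  have hp : ‖(p : E)‖ ≤ 1 / 2 := by simpa using p.2
  have hz : ‖(z : E)‖ = 1 := by simpa using z.2
  have hw : ‖(w : E)‖ = 1 := by simpa using w.2
  have e1 := shiftFun_spec p z
  have e2 := shiftFun_spec p w
  have b1 := (norm_add_bounds p z).1
  have b2 := (norm_add_bounds p w).1
  set a := ‖(z : E) + p‖ with ha
  set b := ‖(w : E) + p‖ with hb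
  have e3 : b • ((z : E) + p) = a • ((w : E) + p) := by
    rw [← e1, ← e2, h, smul_smul, smul_smul, mul_comm]
  have hab : a = b := by
    rcases le_total a b with hle | hle
    · exact le_antisymm hle (aux_le (p : E) z w a b hp hz hw (by linarith) hle e3)
    · exact le_antisymm (aux_le (p : E) w z b a hp hw hz (by linarith) hle e3.symm) hle
  rw [hab] at e3
  have e4 : (z : E) + p = (w : E) + p :=
    smul_right_injective E (by linarith : b ≠ 0) e3
  exact Subtype.ext (add_right_cancel e4)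

lemma shift_surjective (p : closedBall (0 : E) (1 / 2)) : Function.Surjective (shift p) := by
  intro w
  have hp : ‖(p : E)‖ ≤ 1 / 2 := by simpa using p.2
  have hw : ‖(w : E)‖ = 1 := by simpa using w.2
  have hc : ContinuousOn (fun s : ℝ => ‖s • (w : E) - p‖) (Icc 0 2) := by fun_prop
  have h2 : (1 : ℝ) ≤ ‖(2 : ℝ) • (w : E) - p‖ := by
    have h3 : ‖(2 : ℝ) • (w : E)‖ = 2 := by
      rw [norm_smul, hw]; simp
    have h4 := norm_sub_norm_le ((2 : ℝ) • (w : E)) p
    linarith
  have h0 : ‖(0 : ℝ) • (w : E) - p‖ ≤ 1 := by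
    rw [zero_smul, zero_sub, norm_neg]; linarith
  obtain ⟨s, hs, hs1⟩ := intermediate_value_Icc (by norm_num : (0 : ℝ) ≤ 2) hc ⟨h0, h2⟩
  have hs1' : ‖s • (w : E) - p‖ = 1 := hs1
  have hs0 : s ≠ 0 := by
    rintro rfl
    rw [zero_smul, zero_sub, norm_neg] at hs1'
    linarith
  refine ⟨⟨s • (w : E) - p, by simpa using hs1'⟩, ?_⟩
  rw [shift_apply]
  apply Subtype.ext
  simp only [shiftFun, sub_add_cancel]
  rw [norm_smul, hw, mul_one, Real.norm_of_nonneg hs.1, smul_smul, inv_mul_cancel₀ hs0, one_smul]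

lemma shift_homotopic (p : closedBall (0 : E) (1 / 2)) :
    ContinuousMap.Homotopic (shift p) (ContinuousMap.id _) := by
  have hp : ‖(p : E)‖ ≤ 1 / 2 := by simpa using p.2
  have hm : ∀ t : unitInterval, (1 - (t : ℝ)) • (p : E) ∈ closedBall (0 : E) (1 / 2) := by
    intro t
    have h1 := t.2.1
    have h2 := t.2.2
    rw [mem_closedBall_zero_iff, norm_smul, Real.norm_of_nonneg (by linarith)]
    nlinarith [norm_nonneg (p : E)]
  have hcont : Continuous (fun q : unitInterval × sphere (0 : E) 1 =>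
      ((⟨(1 - (q.1 : ℝ)) • (p : E), hm q.1⟩ : closedBall (0 : E) (1 / 2)), q.2)) := by
    refine Continuous.prodMk (Continuous.subtype_mk ?_ _) continuous_snd
    fun_prop
  refine ⟨⟨⟨fun q => shiftFun ⟨(1 - (q.1 : ℝ)) • (p : E), hm q.1⟩ q.2,
    continuous_shiftFun.comp hcont⟩, ?_, ?_⟩⟩
  · intro z
    simp [shift_apply]
  · intro z
    have hz : ‖(z : E)‖ = 1 := by simpa using z.2
    apply Subtype.ext
    simp [shiftFun, hz]

/-- the group as a set -/
def Grp (E : Type) [NormedAddCommGroup E] : Set C(sphere (0 : E) 1, sphere (0 : E) 1) :=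
  {f | Function.Bijective f ∧ ContinuousMap.Homotopic f (ContinuousMap.id _)}

/-- shift maps as group elements -/
noncomputable def shiftG (p : closedBall (0 : E) (1 / 2)) : Grp E :=
  ⟨shift p, ⟨shift_injective p, shift_surjective p⟩, shift_homotopic p⟩

lemma continuous_shiftG : Continuous (shiftG (E := E)) :=
  Continuous.subtype_mk shift.continuous _

section
variable [FiniteDimensional ℝ E] [MeasurableSpace E] [BorelSpace E]

lemma cone_bound (vol : Measure E) [vol.IsAddHaarMeasure] (M : ℕ)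
    (K : Fin M → Set (sphere (0 : E) 1)) (hK : ∀ i, IsCompact (K i))
    (hd : Pairwise (Function.onFun Disjoint K)) (z : Fin M → sphere (0 : E) 1) :
    M * vol (Subtype.val '' {p : closedBall (0 : E) (1 / 2) | ∀ i, shift p (z i) ∈ K i})
      ≤ vol (closedBall 0 2) := by
  set A := Subtype.val '' {p : closedBall (0 : E) (1 / 2) | ∀ i, shift p (z i) ∈ K i} with hA
  let C : Fin M → Set E := fun i =>
    (fun q : ℝ × sphere (0 : E) 1 => q.1 • (q.2 : E)) '' (Icc (1 / 2) 2 ×ˢ K i)
  have hCc : ∀ i, IsCompact (C i) := fun i =>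
    (isCompact_Icc.prod (hK i)).image (by fun_prop)
  have hCm : ∀ i, MeasurableSet (C i) := fun i => (hCc i).isClosed.measurableSet
  have hCd : Pairwise (Function.onFun Disjoint C) := by
    intro i j hij
    rw [Function.onFun, Set.disjoint_left]
    rintro x ⟨⟨s, u⟩, ⟨hs, hu⟩, rfl⟩ ⟨⟨t, v⟩, ⟨ht, hv⟩, e⟩
    simp only at e hs hu ht hv
    have hu1 : ‖(u : E)‖ = 1 := by simpa using u.2
    have hv1 : ‖(v : E)‖ = 1 := by simpa using v.2
    have e1 := congrArg norm e
    rw [norm_smul, norm_smul, hu1, hv1, Real.norm_of_nonneg (by linarith [ht.1]),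
      Real.norm_of_nonneg (by linarith [hs.1]), mul_one, mul_one] at e1
    rw [e1] at e
    have e2 : (v : E) = u := smul_right_injective E (by linarith [hs.1] : s ≠ 0) e
    have e3 : v = u := Subtype.ext e2
    rw [e3] at hv
    exact Set.disjoint_left.mp (hd hij) hu hv
  have hCs : ∀ i, C i ⊆ closedBall 0 2 := by
    rintro i x ⟨⟨s, u⟩, ⟨hs, -⟩, rfl⟩
    have hu1 : ‖(u : E)‖ = 1 := by simpa using u.2
    simp only at hs
    rw [mem_closedBall_zero_iff, norm_smul, hu1, Real.norm_of_nonneg (by linarith [hs.1]),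
      mul_one]
    exact hs.2
  have hAC : ∀ i, vol A ≤ vol (C i) := by
    intro i
    rw [← measure_preimage_add vol (z i : E) (C i)]
    apply measure_mono
    rintro x ⟨p, hp, rfl⟩
    exact ⟨(‖(z i : E) + p‖, shift p (z i)), ⟨norm_add_bounds p (z i), hp i⟩,
      shiftFun_spec p (z i)⟩
  calc (M : ℝ≥0∞) * vol A = ∑ _i : Fin M, vol A := by simp
    _ ≤ ∑ i : Fin M, vol (C i) := Finset.sum_le_sum fun i _ => hAC i
    _ = vol (⋃ i, C i) := by rw [measure_iUnion hCd hCm, tsum_fintype]
    _ ≤ vol (closedBall 0 2) := measure_mono (iUnion_subset hCs)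

lemma exists_sep (hinf : (sphere (0 : E) 1).Infinite) (M : ℕ) :
    ∃ δ : ℝ, 0 < δ ∧ ∃ y : Fin M → sphere (0 : E) 1,
      Pairwise (Function.onFun Disjoint fun i => closedBall (y i) δ) := by
  haveI : Infinite (sphere (0 : E) 1) := hinf.to_subtype
  let y : Fin M → sphere (0 : E) 1 := fun i => Infinite.natEmbedding _ i
  have hy : Function.Injective y := fun i j h =>
    Fin.ext ((Infinite.natEmbedding _).injective h)
  have hev : ∀ᶠ δ in 𝓝[>] (0 : ℝ), ∀ q : Fin M × Fin M, q.1 ≠ q.2 →
      δ + δ < dist (y q.1) (y q.2) := by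
    rw [Filter.eventually_all]
    intro q
    by_cases hq : q.1 = q.2
    · exact Filter.Eventually.of_forall fun _ h => absurd hq h
    · have hpos : 0 < dist (y q.1) (y q.2) / 2 := half_pos (dist_pos.mpr (hy.ne hq))
      filter_upwards [mem_nhdsWithin_of_mem_nhds (Iio_mem_nhds hpos)] with δ hδ _
      have : δ < dist (y q.1) (y q.2) / 2 := hδ
      linarith
  obtain ⟨δ, h1, h2⟩ := (hev.and self_mem_nhdsWithin).exists
  exact ⟨δ, h2, y, fun i j hij => closedBall_disjoint_closedBall (h1 (i, j) hij)⟩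

/-- normalised Lebesgue measure on the parameter ball -/
noncomputable def parMeasure (vol : Measure E) : Measure (closedBall (0 : E) (1 / 2)) :=
  (vol (closedBall (0 : E) (1 / 2)))⁻¹ • vol.comap Subtype.val

lemma parMeasure_apply (vol : Measure E) (A : Set (closedBall (0 : E) (1 / 2))) :
    parMeasure vol A = (vol (closedBall (0 : E) (1 / 2)))⁻¹ * vol (Subtype.val '' A) := by
  rw [parMeasure, Measure.smul_apply, smul_eq_mul,
    (MeasurableEmbedding.subtype_coe measurableSet_closedBall).comap_apply]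

lemma parMeasure_prob (vol : Measure E) [vol.IsAddHaarMeasure] :
    IsProbabilityMeasure (parMeasure vol) := by
  haveI : ProperSpace E := FiniteDimensional.proper_real E
  refine ⟨?_⟩
  rw [parMeasure_apply, image_univ, Subtype.range_coe]
  exact ENNReal.inv_mul_cancel (measure_closedBall_pos vol _ (by norm_num)).ne'
    measure_closedBall_lt_top.ne

lemma small_ball (vol : Measure E) [vol.IsAddHaarMeasure] (hinf : (sphere (0 : E) 1).Infinite)
    [MeasurableSpace (Grp E)] [BorelSpace (Grp E)] (ε : ℝ≥0∞) (hε : ε ≠ 0) :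
    ∃ δ : ℝ, 0 < δ ∧ ∀ d g h : Grp E, (parMeasure vol).map shiftG
      {x : Grp E | ∃ b ∈ ball d δ, (x : C(sphere (0 : E) 1, sphere (0 : E) 1)) =
        (g : C(sphere (0 : E) 1, sphere (0 : E) 1)).comp
          ((b : C(sphere (0 : E) 1, sphere (0 : E) 1)).comp h)} ≤ ε := by
  haveI : ProperSpace E := FiniteDimensional.proper_real E
  set c : ℝ≥0∞ := (vol (closedBall (0 : E) (1 / 2)))⁻¹ * vol (closedBall (0 : E) 2) with hc
  have hcfin : c ≠ ⊤ := ENNReal.mul_ne_top
    (ENNReal.inv_ne_top.mpr (measure_closedBall_pos vol _ (by norm_num)).ne')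
    measure_closedBall_lt_top.ne
  obtain ⟨M, hM0, hM⟩ : ∃ M : ℕ, M ≠ 0 ∧ c ≤ M * ε := by
    obtain ⟨M, hM0, hM⟩ := ENNReal.exists_nat_pos_mul_gt hε hcfin
    exact ⟨M, hM0.ne', hM.le⟩
  obtain ⟨δ, hδ, y, hy⟩ := exists_sep hinf M
  refine ⟨δ, hδ, fun d g h => ?_⟩
  have hsurj : Function.Surjective (fun w => d.1 (h.1 w)) := d.2.1.2.comp h.2.1.2
  choose z hz using fun i => hsurj (y i)
  let K : Fin M → Set (sphere (0 : E) 1) := fun i => g.1 '' closedBall (y i) δ
  have hK : ∀ i, IsCompact (K i) := fun i => (isCompact_closedBall _ _).image g.1.continuous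
  have hd : Pairwise (Function.onFun Disjoint K) := fun i j hij =>
    (Set.disjoint_image_iff g.2.1.1).mpr (hy hij)
  let X : Set (Grp E) := ⋂ i, {x | x.1 (z i) ∈ K i}
  have hX : IsClosed X := isClosed_iInter fun i =>
    (hK i).isClosed.preimage ((continuous_eval_const (z i)).comp continuous_subtype_val)
  have hb := cone_bound vol M K hK hd z
  have hpre : shiftG ⁻¹' X = {p : closedBall (0 : E) (1 / 2) | ∀ i, shift p (z i) ∈ K i} := by
    ext p
    simp [X, shiftG]
  refine le_trans (measure_mono (t := X) ?_) ?_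
  · rintro x ⟨b, hb, hx⟩
    refine mem_iInter.mpr fun i => ⟨b.1 (h.1 (z i)), ?_, by rw [hx]; rfl⟩
    have h1 : dist b.1 d.1 < δ := hb
    have h2 := ContinuousMap.dist_apply_le_dist (f := b.1) (g := d.1) (h.1 (z i))
    have h3 : d.1 (h.1 (z i)) = y i := hz i
    rw [mem_closedBall, ← h3]
    linarith
  · rw [Measure.map_apply continuous_shiftG.measurable hX.measurableSet, hpre, parMeasure_apply]
    have hM1 : (M : ℝ≥0∞) ≠ 0 := by exact_mod_cast hM0
    rw [← ENNReal.mul_le_mul_iff_right hM1 (ENNReal.natCast_ne_top M)]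
    refine le_trans ?_ hM
    rw [hc, mul_left_comm]
    gcongr

lemma dense_open_small (vol : Measure E) [vol.IsAddHaarMeasure]
    (hinf : (sphere (0 : E) 1).Infinite)
    [MeasurableSpace (Grp E)] [BorelSpace (Grp E)] (η : ℝ≥0∞) (hη : η ≠ 0) :
    ∃ U : Set (Grp E), IsOpen U ∧ Dense U ∧ ∀ g h : Grp E, (parMeasure vol).map shiftG
      {x : Grp E | ∃ b ∈ U, (x : C(sphere (0 : E) 1, sphere (0 : E) 1)) =
        (g : C(sphere (0 : E) 1, sphere (0 : E) 1)).comp
          ((b : C(sphere (0 : E) 1, sphere (0 : E) 1)).comp h)} ≤ η := by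
  haveI : ProperSpace E := FiniteDimensional.proper_real E
  haveI : Nonempty (Grp E) := ⟨shiftG ⟨0, by simp⟩⟩
  obtain ⟨d, hd⟩ := TopologicalSpace.exists_dense_seq (Grp E)
  obtain ⟨ε, hε, hsum⟩ := ENNReal.exists_pos_sum_of_countable hη ℕ
  choose δ hδ hball using fun j => small_ball vol hinf (ε j) (by exact_mod_cast (hε j).ne')
  refine ⟨⋃ j, ball (d j) (δ j), isOpen_iUnion fun j => isOpen_ball, ?_, fun g h => ?_⟩
  · refine Dense.mono ?_ hd
    rintro _ ⟨j, rfl⟩
    exact mem_iUnion.mpr ⟨j, mem_ball_self (hδ j)⟩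
  · refine le_trans (measure_mono (t := ⋃ j, {x : Grp E | ∃ b ∈ ball (d j) (δ j),
      (x : C(sphere (0 : E) 1, sphere (0 : E) 1)) =
        (g : C(sphere (0 : E) 1, sphere (0 : E) 1)).comp
          ((b : C(sphere (0 : E) 1, sphere (0 : E) 1)).comp h)}) ?_) ?_
    · rintro x ⟨b, hb, hx⟩
      obtain ⟨j, hj⟩ := mem_iUnion.mp hb
      exact mem_iUnion.mpr ⟨j, b, hj, hx⟩
    · exact (measure_iUnion_le _).trans
        ((ENNReal.tsum_le_tsum fun j => hball j (d j) g h).trans hsum.le)

theorem decomposition (hinf : (sphere (0 : E) 1).Infinite)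
    [MeasurableSpace (Grp E)] [BorelSpace (Grp E)] :
    ∃ M N : Set (Grp E), M ∪ N = Set.univ ∧ IsMeagre M ∧
    ∃ B : Set (Grp E), N ⊆ B ∧ MeasurableSet B ∧
    ∃ μ : Measure (Grp E), IsProbabilityMeasure μ ∧
      ∀ g h : Grp E,
        μ {x : Grp E | ∃ b ∈ B, (x : C(sphere (0 : E) 1, sphere (0 : E) 1)) =
        (g : C(sphere (0 : E) 1, sphere (0 : E) 1)).comp
          ((b : C(sphere (0 : E) 1, sphere (0 : E) 1)).comp h)} = 0 := by
  let vol : Measure E := Measure.addHaar
  haveI := parMeasure_prob vol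
  choose U hUo hUd hU using fun k : ℕ => dense_open_small vol hinf ((k : ℝ≥0∞))⁻¹ (by simp)
  refine ⟨(⋂ k, U k)ᶜ, ⋂ k, U k, compl_union_self _, ?_, ⋂ k, U k, subset_rfl,
    MeasurableSet.iInter fun k => (hUo k).measurableSet, (parMeasure vol).map shiftG,
    Measure.isProbabilityMeasure_map continuous_shiftG.measurable.aemeasurable, fun g h => ?_⟩
  · rw [IsMeagre, compl_compl, countable_iInter_mem]
    exact fun k => residual_of_dense_open (hUo k) (hUd k)
  · refine le_antisymm (ge_of_tendsto' ENNReal.tendsto_inv_nat_nhds_zero fun k => ?_) zero_le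
    refine le_trans (measure_mono ?_) (hU k g h)
    rintro x ⟨b, hb, hx⟩
    exact ⟨b, mem_iInter.mp hb k, hx⟩

end

lemma sphere_infinite (n : ℕ) (hn : 1 ≤ n) :
    (sphere (0 : EuclideanSpace ℝ (Fin (n + 1))) 1).Infinite := by
  have hr : 1 < Module.rank ℝ (EuclideanSpace ℝ (Fin (n + 1))) := by
    rw [← Module.finrank_eq_rank, finrank_euclideanSpace_fin]
    exact_mod_cast Nat.lt_succ_of_le hn
  refine (isConnected_sphere hr 0 zero_le_one).isPreconnected.infinite_of_nontrivial ?_
  refine ⟨EuclideanSpace.single 0 1, by simp, -EuclideanSpace.single 0 1, by simp, fun h => ?_⟩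
  have h1 := congrArg (fun v : EuclideanSpace ℝ (Fin (n + 1)) => v 0) h
  simp at h1
  norm_num at h1

end Pool.Agent.MP_4045d2_lc
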