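import Mathlib

/-! Random fields whose values at separated points are independent and uniform. -/

set_option autoImplicit false

open Set MeasureTheory Function Filter Topology
open scoped ENNReal

namespace Pool.Agent.MP_4045d2_lc.Sc

theorem map_extend {ι J X : Type} [MeasurableSpace X] (μ : Measure X) [IsProbabilityMeasure μ]
    {e : J → ι} (he : Injective e) :
    MeasurePreserving (fun p : (ι → X) × (J → X) => Function.extend e p.2 p.1)
      ((Measure.infinitePi fun _ : ι => μ).prod (Measure.infinitePi fun _ : J => μ))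
      (Measure.infinitePi fun _ : ι => μ) := by
  classical
  have hm : Measurable (fun p : (ι → X) × (J → X) => Function.extend e p.2 p.1) := by
    refine measurable_pi_lambda _ fun i => ?_
    by_cases h : ∃ j, e j = i
    · obtain ⟨j, rfl⟩ := h
      simp only [he.extend_apply]
      fun_prop
    · simp only [extend_apply' _ _ _ h]
      fun_prop
  refine ⟨hm, Measure.eq_infinitePi _ fun s t ht => ?_⟩
  have h1 : (fun p : (ι → X) × (J → X) => Function.extend e p.2 p.1) ⁻¹' (Set.pi s t) =
      (Set.pi (s.filter fun i => ¬ ∃ j, e j = i) t) ×ˢ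
        (Set.pi (s.preimage e he.injOn) fun j => t (e j)) := by
    ext p
    simp only [mem_preimage, Set.mem_pi, Finset.mem_coe, mem_prod, Finset.mem_filter,
      Finset.mem_preimage]
    constructor
    · refine fun h => ⟨fun i hi => ?_, fun j hj => ?_⟩
      · simpa only [extend_apply' _ _ _ hi.2] using h i hi.1
      · simpa only [he.extend_apply] using h _ hj
    · rintro ⟨h1, h2⟩ i hi
      by_cases h : ∃ j, e j = i
      · obtain ⟨j, rfl⟩ := h
        rw [he.extend_apply]
        exact h2 j hi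
      · rw [extend_apply' _ _ _ h]
        exact h1 i ⟨hi, h⟩
  rw [Measure.map_apply hm (MeasurableSet.pi s.countable_toSet fun i _ => ht i), h1,
    Measure.prod_prod, Measure.infinitePi_pi _ fun i _ => ht i,
    Measure.infinitePi_pi _ fun j _ => ht _,
    Finset.prod_preimage' e s he.injOn (fun i => μ (t i)), mul_comm]
  convert Finset.prod_filter_mul_prod_filter_not s (fun i => ∃ j, e j = i) fun i => μ (t i)
  rfl

theorem lint_extend {ι J X : Type} [MeasurableSpace X] (μ : Measure X) [IsProbabilityMeasure μ]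
    {e : J → ι} (he : Injective e) {f : (ι → X) → ℝ≥0∞} (hf : Measurable f) {β : ℝ≥0∞}
    (h : ∀ ω, ∫⁻ a, f (Function.extend e a ω) ∂(Measure.infinitePi fun _ : J => μ) ≤ β) :
    ∫⁻ ω, f ω ∂(Measure.infinitePi fun _ : ι => μ) ≤ β := by
  rw [← (map_extend μ he).lintegral_comp hf,
    lintegral_prod (fun p : (ι → X) × (J → X) => f (Function.extend e p.2 p.1))
      (hf.comp (map_extend μ he).measurable).aemeasurable]
  exact (lintegral_mono h).trans (by simp)

theorem meas_update {ι X : Type} [DecidableEq ι] [MeasurableSpace X] (μ : Measure X)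
    [IsProbabilityMeasure μ] (i : ι) {E : Set (ι → X)} (hE : MeasurableSet E) {β : ℝ≥0∞}
    (h : ∀ ω, μ {a | update ω i a ∈ E} ≤ β) : (Measure.infinitePi fun _ : ι => μ) E ≤ β := by
  rw [← lintegral_indicator_one hE]
  refine lint_extend μ (J := Unit) (e := fun _ => i) (fun _ _ _ => rfl)
    (measurable_one.indicator hE) fun ω => ?_
  have h1 : ∀ a : Unit → X, Function.extend (fun _ : Unit => i) a ω = update ω i (a ()) := by
    intro a
    funext k
    by_cases hk : k = i
    · subst hk
      rw [update_self]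
      exact Function.Injective.extend_apply (f := fun _ : Unit => k) (fun _ _ _ => rfl) a ω ()
    · rw [update_of_ne hk, extend_apply' _ _ _ fun ⟨_, h⟩ => hk h.symm]
  simp only [h1]
  have h2 : Measurable fun a : X => E.indicator (1 : (ι → X) → ℝ≥0∞) (update ω i a) :=
    (measurable_one.indicator hE).comp (measurable_update ω)
  rw [(measurePreserving_eval_infinitePi (fun _ : Unit => μ) ()).lintegral_comp h2]
  refine le_trans (le_of_eq ?_) (h ω)
  exact lintegral_indicator_one (measurable_update ω hE)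

theorem pi_dom {J X : Type} [Fintype J] [MeasurableSpace X] (μ ν : J → Measure X)
    [∀ j, SigmaFinite (μ j)] [∀ j, SigmaFinite (ν j)] {κ : ℝ≥0∞} (hκ : κ ≠ ⊤)
    (h : ∀ j, μ j ≤ κ • ν j) : Measure.pi μ ≤ κ ^ Fintype.card J • Measure.pi ν := by
  classical
  have key : ∀ (s : Finset J) (f : (J → X) → ℝ≥0∞), Measurable f → ∀ x,
      (∫⋯∫⁻_s, f ∂μ) x ≤ κ ^ s.card * (∫⋯∫⁻_s, f ∂ν) x := by
    intro s f hf
    induction s using Finset.induction_on with
    | empty => simp
    | insert i s hi ih =>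
      intro x
      rw [lmarginal_insert f hf hi, lmarginal_insert f hf hi, Finset.card_insert_of_notMem hi]
      refine (lintegral_mono' (h i) fun a => ih _).trans (le_of_eq ?_)
      rw [lintegral_smul_measure, lintegral_const_mul' _ _ (ENNReal.pow_ne_top hκ), smul_eq_mul,
        ← mul_assoc, pow_succ']
  refine Measure.le_iff.2 fun E hE => ?_
  rcases E.eq_empty_or_nonempty with rfl | ⟨x, -⟩
  · simp
  have := key Finset.univ _ (measurable_one.indicator hE) x
  rwa [lmarginal_univ, lmarginal_univ, lintegral_indicator_one hE, lintegral_indicator_one hE]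
    at this

/-- distance to the nearest integer -/
noncomputable def tri (t : ℝ) : ℝ := ‖(t : UnitAddCircle)‖

theorem continuous_tri : Continuous tri := (AddCircle.continuous_mk' 1).norm

theorem tri_mem (t : ℝ) : tri t ∈ Icc (0 : ℝ) (1 / 2) :=
  ⟨norm_nonneg _, by simpa [tri] using AddCircle.norm_le_half_period (1 : ℝ) one_ne_zero⟩

/-- the uniform law on `[a, a + l]` -/
noncomputable def un (a l : ℝ) : Measure ℝ :=
  (ENNReal.ofReal l)⁻¹ • volume.restrict (Icc a (a + l))

theorem un_prob (a : ℝ) {l : ℝ} (hl : 0 < l) : IsProbabilityMeasure (un a l) := ⟨by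
  simp only [un, Measure.smul_apply, Measure.restrict_apply_univ, Real.volume_Icc,
    add_sub_cancel_left, smul_eq_mul]
  exact ENNReal.inv_mul_cancel (by simpa using hl) ENNReal.ofReal_ne_top⟩

/-- the uniform law on `(0, 1]` -/
noncomputable def u0 : Measure ℝ := volume.restrict (Ioc 0 (0 + 1))

instance : IsProbabilityMeasure u0 := ⟨by simp [u0]⟩

theorem tri_law (c : ℝ) {S : Set ℝ} (hS : MeasurableSet S) :
    u0 {x | tri (x + c) ∈ S} ≤ 2 * volume (S ∩ Icc 0 (1 / 2)) := by
  have hE : MeasurableSet {θ : UnitAddCircle | ‖θ‖ ∈ S} := continuous_norm.measurable hS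
  have h1 := (UnitAddCircle.measurePreserving_mk 0).measure_preimage
    (s := (fun θ => θ + (c : UnitAddCircle)) ⁻¹' {θ : UnitAddCircle | ‖θ‖ ∈ S})
    (hE.preimage (measurable_add_const _)).nullMeasurableSet
  have h2 := (UnitAddCircle.measurePreserving_mk (-(1 / 2))).measure_preimage hE.nullMeasurableSet
  rw [measure_preimage_add_right, ← h2] at h1
  refine le_trans (le_of_eq h1) ?_
  rw [Measure.restrict_apply' measurableSet_Ioc, two_mul]
  nth_rewrite 2 [← Measure.measure_neg volume (S ∩ Icc 0 (1 / 2))]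
  refine (measure_mono ?_).trans (measure_union_le _ _)
  rintro x ⟨h3, h4, h5⟩
  have h6 : ‖(x : UnitAddCircle)‖ = |x| := (AddCircle.norm_coe_eq_abs_iff 1 one_ne_zero).2
    (by rw [abs_one, abs_le]; constructor <;> linarith)
  have h7 : |x| ∈ S := h6 ▸ h3
  rcases le_total 0 x with h | h
  · exact Or.inl ⟨by rwa [abs_of_nonneg h] at h7, h, by linarith⟩
  · exact Or.inr ⟨by rwa [abs_of_nonpos h] at h7, by linarith, by linarith⟩

theorem tri_dom {r r' : ℝ} (y y0 c : ℝ) (hr : 0 < r) (hr' : 0 ≤ r') :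
    (u0.map fun x => y + r * tri (x + c)).restrict (Icc (y0 - r') (y0 - r' + (r / 2 + 2 * r'))) ≤
      ENNReal.ofReal (1 + 4 * r' / r) • un (y0 - r') (r / 2 + 2 * r') := by
  have hc := continuous_tri
  refine Measure.le_iff.2 fun S hS => ?_
  have hS' := hS.inter (measurableSet_Icc (a := y0 - r') (b := y0 - r' + (r / 2 + 2 * r')))
  rw [Measure.restrict_apply hS, Measure.map_apply (by fun_prop) hS']
  refine (tri_law c (S := (fun t => r * t) ⁻¹' ((fun t => y + t) ⁻¹' _))
    ((hS'.preimage (by fun_prop)).preimage (by fun_prop))).trans ?_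
  refine (mul_le_mul_right (measure_mono inter_subset_left) 2).trans (le_of_eq ?_)
  rw [Real.volume_preimage_mul_left hr.ne', measure_preimage_add, un, Measure.smul_apply,
    Measure.smul_apply, Measure.restrict_apply hS, smul_eq_mul, smul_eq_mul, ← mul_assoc,
    ← mul_assoc, ← ENNReal.ofReal_inv_of_pos (by positivity),
    ← ENNReal.ofReal_mul (by positivity), ← ENNReal.ofReal_ofNat 2,
    ← ENNReal.ofReal_mul (by positivity), abs_of_pos (by positivity)]
  congr 2
  field_simp
  ring

/-- a plateau function -/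
noncomputable def pl (u : ℝ) : ℝ := max 0 (min 1 (2 - |u|))

theorem continuous_pl : Continuous pl := by unfold pl; fun_prop

theorem pl_one {u : ℝ} (h : |u| ≤ 1) : pl u = 1 := by
  rw [pl, min_eq_left (by linarith), max_eq_right zero_le_one]

theorem pl_zero {u : ℝ} (h : 2 ≤ |u|) : pl u = 0 :=
  max_eq_left ((min_le_right _ _).trans (by linarith))

variable {C : Type} [Fintype C]

/-- the random field -/
noncomputable def fld (ρ : ℝ) (I : ℕ) (ξ : ℤ → C → ℝ) (t : ℝ) : C → ℝ :=
  fun c => tri (∑ i ∈ Finset.Icc (-(I : ℤ)) I, pl (t / ρ - i) * ξ i c)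

/-- the law of the parameters -/
noncomputable def PP (C : Type) [Fintype C] : Measure (ℤ → C → ℝ) :=
  Measure.infinitePi fun _ => Measure.pi fun _ => u0

instance : IsProbabilityMeasure (PP C) := by unfold PP; infer_instance

/-- a box -/
def box (y0 : C → ℝ) (r r' : ℝ) : Set (C → ℝ) :=
  univ.pi fun c => Icc (y0 c - r') (y0 c - r' + (r / 2 + 2 * r'))

theorem measurableSet_box (y0 : C → ℝ) (r r' : ℝ) : MeasurableSet (box y0 r r') :=
  .univ_pi fun _ => measurableSet_Icc

/-- the uniform law on a box -/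
noncomputable def bx (y0 : C → ℝ) (r r' : ℝ) : Measure (C → ℝ) :=
  Measure.pi fun c => un (y0 c - r') (r / 2 + 2 * r')

theorem bx_prob (y0 : C → ℝ) {r r' : ℝ} (hr : 0 < r) (hr' : 0 ≤ r') :
    IsProbabilityMeasure (bx y0 r r') := by
  have := fun c => un_prob (y0 c - r') (show 0 < r / 2 + 2 * r' by positivity)
  unfold bx
  infer_instance

omit [Fintype C] in
theorem continuous_fld (ρ : ℝ) (I : ℕ) :
    Continuous fun p : (ℤ → C → ℝ) × ℝ => fld ρ I p.1 p.2 := by
  have := continuous_pl
  refine continuous_pi fun c => continuous_tri.comp (continuous_finsetSum _ fun i _ => ?_)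
  fun_prop

theorem norm_fld (ρ : ℝ) (I : ℕ) (ξ : ℤ → C → ℝ) (t : ℝ) : ‖fld ρ I ξ t‖ ≤ 1 / 2 :=
  (pi_norm_le_iff_of_nonneg (by norm_num)).2 fun c => by
    rw [fld, Real.norm_of_nonneg (tri_mem _).1]
    exact (tri_mem _).2

theorem mem_box {r r' : ℝ} (hr : 0 < r) {y y0 : C → ℝ} (hy : ‖y - y0‖ ≤ r') (ρ : ℝ) (I : ℕ)
    (ξ : ℤ → C → ℝ) (t : ℝ) : y + r • fld ρ I ξ t ∈ box y0 r r' := fun c _ => by
  obtain ⟨h1, h2⟩ := abs_le.1 ((norm_le_pi_norm (y - y0) c).trans hy)
  obtain ⟨h3, h4⟩ : fld ρ I ξ t c ∈ Icc (0 : ℝ) (1 / 2) := tri_mem _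
  simp only [Pi.sub_apply] at h1 h2
  simp only [Pi.add_apply, Pi.smul_apply, smul_eq_mul]
  constructor <;> nlinarith

theorem box_compl {r r' r'' : ℝ} (hr : 0 < r) (hr' : 0 ≤ r') (hr'' : 0 ≤ r'') (y0 : C → ℝ) :
    bx y0 r r' (box y0 r r'')ᶜ ≤
      Fintype.card C * ((ENNReal.ofReal (r / 2))⁻¹ * (ENNReal.ofReal r' + ENNReal.ofReal r')) := by
  have := fun c => un_prob (y0 c - r') (show 0 < r / 2 + 2 * r' by positivity)
  have h1 : (box y0 r r'')ᶜ ⊆
      ⋃ c, Function.eval c ⁻¹' (Icc (y0 c - r'') (y0 c - r'' + (r / 2 + 2 * r'')))ᶜ := by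
    intro x hx
    by_contra h
    exact hx fun c _ => not_not.1 fun k => h (mem_iUnion.2 ⟨c, k⟩)
  refine (measure_mono h1).trans ((measure_iUnion_fintype_le _ _).trans
    ((Finset.sum_le_card_nsmul _ _ _ fun c _ => ?_).trans (by rw [nsmul_eq_mul]; rfl)))
  refine ((measurePreserving_eval (fun c => un (y0 c - r') (r / 2 + 2 * r')) c).measure_preimage
    measurableSet_Icc.compl.nullMeasurableSet).le.trans ?_
  rw [un, Measure.smul_apply, smul_eq_mul, Measure.restrict_apply measurableSet_Icc.compl]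
  refine mul_le_mul' (ENNReal.inv_le_inv.2 (ENNReal.ofReal_le_ofReal (by linarith)))
    ((measure_mono (t := Icc (y0 c - r') (y0 c) ∪ Icc (y0 c + r / 2) (y0 c + r / 2 + r')) ?_).trans
      ((measure_union_le _ _).trans (by simp)))
  rintro x ⟨h2, h3, h4⟩
  rcases not_and_or.1 h2 with h | h
  · exact Or.inl ⟨h3, by linarith⟩
  · exact Or.inr ⟨by linarith, by linarith⟩

theorem fld_law {J : Type} [Fintype J] {ρ r r' : ℝ} (hρ : 0 < ρ) (hr : 0 < r) (hr' : 0 ≤ r')
    {I : ℕ} {t : J → ℝ} (hs : ∀ i j, i ≠ j → 3 * ρ ≤ |t i - t j|) (hI : ∀ j, |t j| ≤ ρ * I)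
    (y : J → C → ℝ) {y0 : C → ℝ} {f : (J → C → ℝ) → ℝ≥0∞} (hf : Measurable f)
    (hf0 : support f ⊆ univ.pi fun _ => box y0 r r') :
    ∫⁻ ξ, f (fun j => y j + r • fld ρ I ξ (t j)) ∂PP C ≤
      (ENNReal.ofReal (1 + 4 * r' / r) ^ Fintype.card C) ^ Fintype.card J *
        ∫⁻ Y, f Y ∂Measure.pi fun _ => bx y0 r r' := by
  classical
  have hcf := continuous_fld (C := C) ρ I
  have hct := continuous_tri
  have := bx_prob y0 hr hr'
  have := fun c => un_prob (y0 c - r') (show 0 < r / 2 + 2 * r' by positivity)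
  set e : J → ℤ := fun j => ⌊t j / ρ⌋ with he
  have h1 : ∀ j, |t j / ρ - e j| ≤ 1 := fun j => by
    rw [abs_le]
    constructor <;> linarith [Int.floor_le (t j / ρ), Int.lt_floor_add_one (t j / ρ)]
  have h2 : ∀ i j, i ≠ j → 2 ≤ |t i / ρ - e j| := fun i j hij => by
    have k1 : 3 ≤ |t i / ρ - t j / ρ| := by
      rw [← sub_div, abs_div, abs_of_pos hρ, le_div_iff₀ hρ]
      exact hs i j hij
    linarith [abs_sub_le (t i / ρ) (e j) (t j / ρ), h1 j, abs_sub_comm (e j : ℝ) (t j / ρ)]
  have hinj : Injective e := fun i j h => by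
    by_contra hij
    have := h2 i j hij
    rw [← h] at this
    linarith [h1 i]
  have h3 : ∀ j, e j ∈ Finset.Icc (-(I : ℤ)) I := fun j => by
    have k1 : |t j / ρ| ≤ I := by
      rw [abs_div, abs_of_pos hρ, div_le_iff₀' hρ]
      exact hI j
    obtain ⟨k2, k3⟩ := abs_le.1 k1
    refine Finset.mem_Icc.2 ⟨Int.le_floor.2 (by exact_mod_cast k2), ?_⟩
    exact_mod_cast (Int.floor_le _).trans k3
  refine lint_extend _ hinj (hf.comp (Continuous.measurable (by fun_prop))) fun ω => ?_
  set cc : J → C → ℝ := fun j c => ∑ i ∈ (Finset.Icc (-(I : ℤ)) I).erase (e j),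
    pl (t j / ρ - i) * ω i c with hcc
  have h4 : ∀ (a : J → C → ℝ) j, y j + r • fld ρ I (Function.extend e a ω) (t j) =
      fun c => y j c + r * tri (a j c + cc j c) := by
    intro a j
    funext c
    simp only [Pi.add_apply, Pi.smul_apply, smul_eq_mul, fld]
    rw [← Finset.add_sum_erase _ _ (h3 j), hinj.extend_apply, pl_one (h1 j), one_mul]
    congr 4
    refine Finset.sum_congr rfl fun i hi => ?_
    by_cases h : ∃ l, e l = i
    · obtain ⟨l, rfl⟩ := h
      rw [pl_zero (h2 j l fun k => (Finset.mem_erase.1 hi).1 (k ▸ rfl)), zero_mul, zero_mul]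
    · rw [extend_apply' _ _ _ h]
  simp only [Function.comp_apply, h4]
  have h5 : ∀ j, Measurable fun (a : C → ℝ) c => y j c + r * tri (a c + cc j c) :=
    fun j => Continuous.measurable (by fun_prop)
  have h6 : ∀ j, ((Measure.pi fun _ : C => u0).map
      (fun a c => y j c + r * tri (a c + cc j c))).restrict (box y0 r r') ≤
      ENNReal.ofReal (1 + 4 * r' / r) ^ Fintype.card C • bx y0 r r' := fun j => by
    rw [Measure.pi_map_pi (f := fun c x => y j c + r * tri (x + cc j c))
      fun c => (Continuous.measurable (by fun_prop)).aemeasurable, box, Measure.restrict_pi_pi]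
    exact pi_dom _ _ ENNReal.ofReal_ne_top fun c => tri_dom _ _ _ hr hr'
  rw [Measure.infinitePi_eq_pi, ← lintegral_map
    (g := fun (a : J → C → ℝ) j c => y j c + r * tri (a j c + cc j c)) hf
    (Continuous.measurable (by fun_prop)), Measure.pi_map_pi fun j => (h5 j).aemeasurable,
    ← setLIntegral_eq_of_support_subset hf0, Measure.restrict_pi_pi]
  refine (lintegral_mono' (pi_dom _ _ (ENNReal.pow_ne_top ENNReal.ofReal_ne_top) h6)
    le_rfl).trans (le_of_eq ?_)
  rw [lintegral_smul_measure, smul_eq_mul]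

end Pool.Agent.MP_4045d2_lc.Sc
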