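import Pool.Agent.MP_4045d2_lc.ScA

/-! Random shears scramble every small cluster of points. -/

set_option autoImplicit false

open Set MeasureTheory Function Filter Topology Metric
open scoped ENNReal

namespace Pool.Agent.MP_4045d2_lc.Sc

variable {C₁ C₂ : Type} [Fintype C₁] [Fintype C₂] [Inhabited C₁] [Inhabited C₂]

/-- a pair of shears -/
def shear (U : ℝ → C₁ → ℝ) (W : ℝ → C₂ → ℝ) (v : (C₁ → ℝ) × (C₂ → ℝ)) :
    (C₁ → ℝ) × (C₂ → ℝ) :=
  (v.1 + U ((v.2 + W (v.1 default)) default), v.2 + W (v.1 default))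

/-- the random pair of shears of one level -/
noncomputable def lev (r ρ : ℝ) (I : ℕ) (α : (ℤ → C₂ → ℝ) × (ℤ → C₁ → ℝ)) :
    (C₁ → ℝ) × (C₂ → ℝ) → (C₁ → ℝ) × (C₂ → ℝ) :=
  shear (fun t => r • fld ρ I α.2 t) (fun t => r • fld ρ I α.1 t)

omit [Inhabited C₁] [Inhabited C₂] in
theorem exch {M : Type} [MetricSpace M] (q : ℕ) (ν₂ : Measure (C₂ → ℝ))
    (ν₁ : Measure (C₁ → ℝ)) [IsProbabilityMeasure ν₁] [IsProbabilityMeasure ν₂]
    {γ : (C₁ → ℝ) × (C₂ → ℝ) → M} (hγ : Continuous γ) {σ : ℝ} (hσ : 0 < σ) (o : M)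
    (A : Fin (q + 1) → Set ((Fin (q + 1) → C₂ → ℝ) × (Fin (q + 1) → C₁ → ℝ)))
    (hA : ∀ j, A j = {p | dist (γ (p.2 j, p.1 j)) o ≤ σ / 3 ∧
      ∀ i, i ≠ j → σ ≤ dist (γ (p.2 j, p.1 j)) (γ (p.2 i, p.1 i))}) :
    MeasurableSet (A 0) ∧ ((Measure.pi fun _ => ν₂).prod (Measure.pi fun _ => ν₁)) (A 0) ≤
      ((q + 1 : ℕ) : ℝ≥0∞)⁻¹ := by
  have hm : ∀ j, MeasurableSet (A j) := fun j => by
    rw [hA, ofPred_and]
    simp only [ofPred_forall]
    exact ((isClosed_le (by fun_prop) continuous_const).inter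
      (isClosed_iInter fun i => isClosed_iInter fun _ =>
        isClosed_le continuous_const (by fun_prop))).measurableSet
  have hd : Pairwise (Disjoint on A) := fun j l hjl => by
    rw [onFun, hA, hA, Set.disjoint_left]
    rintro p ⟨k0, k1⟩ ⟨k2, -⟩
    linarith [k1 l hjl.symm, dist_triangle_right (γ (p.2 j, p.1 j)) (γ (p.2 l, p.1 l)) o]
  set ν := (Measure.pi fun _ : Fin (q + 1) => ν₂).prod (Measure.pi fun _ : Fin (q + 1) => ν₁)
  have he : ∀ j, ν (A j) = ν (A 0) := fun j => by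
    have k := (measurePreserving_arrowCongr' (fun _ => ν₂) (fun _ => ν₂) (Equiv.swap 0 j)
      (MeasurableEquiv.refl _) fun _ => MeasurePreserving.id _).prod
      (measurePreserving_arrowCongr' (fun _ => ν₁) (fun _ => ν₁) (Equiv.swap 0 j)
      (MeasurableEquiv.refl _) fun _ => MeasurePreserving.id _)
    rw [← k.measure_preimage (hm 0).nullMeasurableSet]
    congr 1
    ext p
    rw [hA, hA]
    have k1 : ∀ i, (Equiv.swap 0 j) i ≠ j ↔ i ≠ 0 := fun i => by
      rw [Ne, Equiv.swap_apply_eq_iff, Equiv.swap_apply_right]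
    show _ ↔ dist (γ (p.2 (Equiv.swap 0 j 0), p.1 (Equiv.swap 0 j 0))) o ≤ σ / 3 ∧ ∀ i, i ≠ 0 →
      σ ≤ dist (γ (p.2 (Equiv.swap 0 j 0), p.1 (Equiv.swap 0 j 0)))
        (γ (p.2 (Equiv.swap 0 j i), p.1 (Equiv.swap 0 j i)))
    rw [Equiv.swap_apply_left]
    refine and_congr_right fun _ => ⟨fun b i h => b _ ((k1 i).2 h), fun b i h => ?_⟩
    obtain ⟨i, rfl⟩ := (Equiv.swap 0 j).surjective i
    exact b _ ((k1 i).1 h)
  refine ⟨hm 0, ENNReal.le_inv_iff_mul_le.2 ?_⟩
  have h1 : ν (⋃ j, A j) ≤ 1 := prob_le_one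
  rw [measure_iUnion hd hm, tsum_fintype] at h1
  simpa [he, mul_comm] using h1

omit [Inhabited C₁] in
theorem bad_le {J : Type} [Fintype J] (y0 : C₂ → ℝ) {r r' ρ : ℝ} (hr : 0 < r) (hr' : 0 ≤ r') :
    (Measure.pi fun _ : J => bx y0 r r')
      {Y | ∃ i j, i ≠ j ∧ |Y i default - Y j default| < 3 * ρ} ≤
      (Fintype.card J : ℝ≥0∞) ^ 2 * ((ENNReal.ofReal (r / 2))⁻¹ * ENNReal.ofReal (6 * ρ)) := by
  classical
  have := bx_prob y0 hr hr'
  have := fun c => un_prob (y0 c - r') (show 0 < r / 2 + 2 * r' by positivity)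
  have h1 : ∀ i j : J, (Measure.pi fun _ : J => bx y0 r r')
      {Y | i ≠ j ∧ |Y i default - Y j default| < 3 * ρ} ≤
      (ENNReal.ofReal (r / 2))⁻¹ * ENNReal.ofReal (6 * ρ) := by
    intro i j
    by_cases hij : i = j
    · simp [hij]
    simp only [Ne, hij, not_false_eq_true, true_and]
    rw [← Measure.infinitePi_eq_pi]
    refine meas_update _ i (isOpen_lt (f := fun Y : J → C₂ → ℝ => |Y i default - Y j default|)
      (by fun_prop) continuous_const).measurableSet fun ω => ?_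
    have h2 : {a : C₂ → ℝ | update ω i a ∈
        {Y : J → C₂ → ℝ | |Y i default - Y j default| < 3 * ρ}} =
        Function.eval default ⁻¹' ball (ω j default) (3 * ρ) := by
      ext a
      simp only [mem_ofPred_eq, update_self, update_of_ne (Ne.symm hij), mem_preimage, mem_ball,
        Real.dist_eq, Function.eval]
    have h3 := (measurePreserving_eval (fun c => un (y0 c - r') (r / 2 + 2 * r'))
      default).measure_preimage (s := ball (ω j default) (3 * ρ))
      measurableSet_ball.nullMeasurableSet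
    rw [h2]
    refine h3.le.trans ?_
    rw [un, Measure.smul_apply, smul_eq_mul]
    refine mul_le_mul' (ENNReal.inv_le_inv.2 (ENNReal.ofReal_le_ofReal (by linarith)))
      ((Measure.restrict_le_self _).trans (le_of_eq ?_))
    rw [Real.volume_ball]
    congr 1
    ring
  simp only [ofPred_exists]
  refine (measure_iUnion_fintype_le _ _).trans ((Finset.sum_le_sum fun i _ =>
    (measure_iUnion_fintype_le _ _).trans (Finset.sum_le_sum fun j _ => h1 i j)).trans ?_)
  simp only [Finset.sum_const, Finset.card_univ, nsmul_eq_mul, sq, mul_assoc, le_refl]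

theorem tuple_le {J : Type} [Fintype J] {r r' ρ : ℝ} (hr : 0 < r) (hr' : 0 ≤ r') (hρ : 0 < ρ)
    {I : ℕ} {z : J → (C₁ → ℝ) × (C₂ → ℝ)} (z0 : (C₁ → ℝ) × (C₂ → ℝ))
    (hs : ∀ i j, i ≠ j → 3 * ρ ≤ |(z i).1 default - (z j).1 default|)
    (hI : ∀ j, ‖z j‖ + r ≤ ρ * I)
    {A : Set ((J → C₂ → ℝ) × (J → C₁ → ℝ))} (hA : MeasurableSet A)
    (hA0 : A ⊆ (univ.pi fun _ => box z0.2 r r') ×ˢ univ.pi fun _ => box z0.1 r r') :
    ((PP C₂).prod (PP C₁))
      {α | (fun j => (lev r ρ I α (z j)).2, fun j => (lev r ρ I α (z j)).1) ∈ A} ≤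
    (ENNReal.ofReal (1 + 4 * r' / r) ^ Fintype.card C₂) ^ Fintype.card J *
      ((Fintype.card J : ℝ≥0∞) ^ 2 * ((ENNReal.ofReal (r / 2))⁻¹ * ENNReal.ofReal (6 * ρ)) +
        (ENNReal.ofReal (1 + 4 * r' / r) ^ Fintype.card C₁) ^ Fintype.card J *
          ((Measure.pi fun _ => bx z0.2 r r').prod (Measure.pi fun _ => bx z0.1 r r')) A) := by
  have := bx_prob z0.1 hr hr'
  have := bx_prob z0.2 hr hr'
  have c1 := continuous_fld (C := C₁) ρ I
  have c2 := continuous_fld (C := C₂) ρ I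
  set κ₁ := (ENNReal.ofReal (1 + 4 * r' / r) ^ Fintype.card C₁) ^ Fintype.card J
  set Bad : Set (J → C₂ → ℝ) := {Y | ∃ i j, i ≠ j ∧ |Y i default - Y j default| < 3 * ρ} with hB
  set Q : Set (J → C₂ → ℝ) := univ.pi fun _ => box z0.2 r r' with hQ
  have hBm : MeasurableSet (Bad ∩ Q) := by
    refine .inter ?_ (.univ_pi fun _ => measurableSet_box _ _ _)
    simp only [hB, ofPred_exists]
    refine .iUnion fun i => .iUnion fun j => (MeasurableSet.const (i ≠ j)).inter ?_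
    exact (isOpen_lt (f := fun Y : J → C₂ → ℝ => |Y i default - Y j default|) (by fun_prop)
      continuous_const).measurableSet
  set φ : (J → C₂ → ℝ) → ℝ≥0∞ := fun Y => (Measure.pi fun _ => bx z0.1 r r') (Prod.mk Y ⁻¹' A)
    with hφ0
  have hφ : Measurable φ := measurable_measure_prodMk_left hA
  have hE : MeasurableSet {α : (ℤ → C₂ → ℝ) × (ℤ → C₁ → ℝ) |
      (fun j => (lev r ρ I α (z j)).2, fun j => (lev r ρ I α (z j)).1) ∈ A} := by
    refine Continuous.measurable (f := fun α : (ℤ → C₂ → ℝ) × (ℤ → C₁ → ℝ) =>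
      (fun j => (lev r ρ I α (z j)).2, fun j => (lev r ρ I α (z j)).1)) ?_ hA
    simp only [lev, shear]
    fun_prop
  have hf : Measurable fun Y => (Bad ∩ Q).indicator (1 : (J → C₂ → ℝ) → ℝ≥0∞) Y + κ₁ * φ Y :=
    (measurable_one.indicator hBm).add (hφ.const_mul _)
  rw [Measure.prod_apply hE]
  refine le_trans (lintegral_mono fun ξ => ?_) ((fld_law (I := I) hρ hr hr' hs (fun j => ?_)
    (fun j => (z j).2) (y0 := z0.2) hf fun Y hY => ?_).trans ?_)
  · set Y : J → C₂ → ℝ := fun j => (z j).2 + r • fld ρ I ξ ((z j).1 default) with hY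
    by_cases hq : Y ∈ Q
    swap
    · refine le_of_eq_of_le (measure_mono_null (t := ∅) (fun a h => hq ?_) measure_empty) zero_le
      exact (hA0 (show (_, _) ∈ A from h)).1
    by_cases hb : Y ∈ Bad
    · exact prob_le_one.trans (by simp [indicator_of_mem (mem_inter hb hq)])
    refine le_trans ?_ le_add_self
    have hA' : MeasurableSet (Prod.mk Y ⁻¹' A) := measurable_prodMk_left hA
    have := fld_law (I := I) (t := fun j => Y j default) (y0 := z0.1)
      hρ hr hr' (fun i j hij => not_lt.1 fun h => hb ⟨i, j, hij, h⟩) (fun j => ?_)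
      (fun j => (z j).1) (measurable_one.indicator hA')
      (support_indicator_subset.trans fun _ h => (hA0 h).2)
    · rw [lintegral_indicator_one hA'] at this
      refine le_trans (le_of_eq ?_) this
      exact (lintegral_indicator_one (measurable_prodMk_left hE)).symm
    · refine (norm_le_pi_norm (Y j) default).trans ((norm_add_le _ _).trans ?_)
      rw [norm_smul, Real.norm_of_nonneg hr.le]
      nlinarith [norm_fld ρ I ξ ((z j).1 default), norm_snd_le (z j), hI j]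
  · refine (norm_le_pi_norm (z j).1 default).trans ?_
    linarith [norm_fst_le (z j), hI j]
  · by_contra h
    refine hY ?_
    have h1 : φ Y = 0 := measure_mono_null (t := ∅) (fun _ k => h (hA0 k).1) measure_empty
    simp only [h1, indicator_of_notMem fun k : Y ∈ Bad ∩ Q => h k.2, mul_zero, add_zero]
  · rw [lintegral_add_left (measurable_one.indicator hBm), lintegral_indicator_one hBm,
      lintegral_const_mul _ hφ, ← Measure.prod_apply hA]
    gcongr
    exact (measure_mono inter_subset_left).trans (bad_le _ hr hr')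

theorem exists_step {V M : Type} [NormedAddCommGroup V] [NormedSpace ℝ V] [MetricSpace M]
    (η : V → M) {a b : V} {R : ℝ} (ha : ‖a‖ ≤ R) (hb : ‖b‖ ≤ R) {N : ℕ} (hN : 0 < N) :
    ∃ a' b' : V, ‖a'‖ ≤ R ∧ ‖b' - a'‖ ≤ 2 * R / N ∧
      dist (η a) (η b) / N ≤ dist (η a') (η b') := by
  have hN' : (0 : ℝ) < N := by exact_mod_cast hN
  set p : ℕ → V := fun i => a + ((i : ℝ) / N) • (b - a) with hp
  have h1 := dist_le_range_sum_dist (fun i => η (p i)) N
  have h2 : p 0 = a := by simp [hp]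
  have h3 : p N = b := by simp [hp, div_self hN'.ne']
  rw [h2, h3] at h1
  obtain ⟨i, hi, h4⟩ := Finset.exists_le_of_sum_le (s := Finset.range N)
    (f := fun _ => dist (η a) (η b) / N) (g := fun i => dist (η (p i)) (η (p (i + 1))))
    ⟨0, Finset.mem_range.2 hN⟩ (by
      rw [Finset.sum_const, Finset.card_range, nsmul_eq_mul, mul_div_cancel₀ _ hN'.ne']
      exact h1)
  refine ⟨p i, p (i + 1), ?_, ?_, h4⟩
  · have h5 : (i : ℝ) / N ≤ 1 := by
      rw [div_le_one hN']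
      exact_mod_cast (Finset.mem_range.1 hi).le
    have := (convex_closedBall (0 : V) R).add_smul_sub_mem (mem_closedBall_zero_iff.2 ha)
      (mem_closedBall_zero_iff.2 hb) ⟨by positivity, h5⟩
    exact mem_closedBall_zero_iff.1 this
  · have h5 : p (i + 1) - p i = (1 / (N : ℝ)) • (b - a) := by
      simp only [hp]
      push_cast
      rw [add_div]
      module
    rw [h5, norm_smul, Real.norm_of_nonneg (by positivity), one_div_mul_eq_div]
    gcongr
    linarith [norm_sub_le b a]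

theorem exists_cluster {M : Type} [MetricSpace M] [CompactSpace M] (q : ℕ) {s : ℝ} (hs : 0 < s) :
    ∃ N : ℕ, ∀ u : ℕ → M, ∃ (o : M) (k : Fin q → ℕ), Injective k ∧
      ∀ j, k j < N ∧ dist (u (k j)) o < s := by
  classical
  obtain ⟨F, -, hF, hc⟩ := finite_cover_balls_of_compact (isCompact_univ (X := M)) hs
  choose f hf hf' using fun x : M => mem_iUnion₂.1 (hc (mem_univ x))
  refine ⟨hF.toFinset.card * q + 1, fun u => ?_⟩
  obtain ⟨o, -, ho⟩ := Finset.exists_lt_card_fiber_of_mul_lt_card_of_maps_to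
    (s := Finset.range (hF.toFinset.card * q + 1)) (t := hF.toFinset) (f := fun i => f (u i))
    (n := q) (fun i _ => hF.mem_toFinset.2 (hf _)) (by simp)
  refine ⟨o, Finset.orderEmbOfCardLe _ ho.le, (Finset.orderEmbOfCardLe _ ho.le).injective,
    fun j => ?_⟩
  obtain ⟨h1, h2⟩ := Finset.mem_filter.1 (Finset.orderEmbOfCardLe_mem _ ho.le j)
  have h3 : ∀ x, f x = o → dist x o < s := fun x h => h ▸ hf' x
  exact ⟨Finset.mem_range.1 h1, h3 _ h2⟩

theorem small {f : ℝ → ℝ≥0∞} (hf : Continuous f) {δ : ℝ≥0∞} (h : f 0 < δ) :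
    ∀ᶠ x in 𝓝[>] (0 : ℝ), f x ≤ δ :=
  ((hf.tendsto 0).eventually (ge_mem_nhds h)).filter_mono nhdsWithin_le_nhds

theorem kappa (r : ℝ) (n k : ℕ) :
    ∀ᶠ r' in 𝓝[>] (0 : ℝ), (ENNReal.ofReal (1 + 4 * r' / r) ^ n) ^ k ≤ 2 :=
  small ((ENNReal.continuous_pow _).comp ((ENNReal.continuous_pow _).comp
    (ENNReal.continuous_ofReal.comp (by fun_prop)))) (by simp)

omit [Inhabited C₁] [Inhabited C₂] in
theorem out_le {r r' r'' : ℝ} (hr : 0 < r) (hr' : 0 ≤ r') (hr'' : 0 ≤ r'')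
    (z0 : (C₁ → ℝ) × (C₂ → ℝ)) :
    ((Measure.pi fun _ : Unit => bx z0.2 r r').prod (Measure.pi fun _ : Unit => bx z0.1 r r'))
      ((fun p => p.1 ()) ⁻¹' (box z0.2 r r'')ᶜ ∪ (fun p => p.2 ()) ⁻¹' (box z0.1 r r'')ᶜ) ≤
    ((Fintype.card C₂ : ℝ≥0∞) + Fintype.card C₁) *
      ((ENNReal.ofReal (r / 2))⁻¹ * (ENNReal.ofReal r' + ENNReal.ofReal r')) := by
  have := bx_prob z0.1 hr hr'
  have := bx_prob z0.2 hr hr'
  rw [add_mul]
  refine (measure_union_le _ _).trans (add_le_add ?_ ?_)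
  · exact (((measurePreserving_eval (fun _ : Unit => bx z0.2 r r') ()).comp
      measurePreserving_fst).measure_preimage
      (measurableSet_box _ _ _).compl.nullMeasurableSet).le.trans (box_compl hr hr' hr'' _)
  · exact (((measurePreserving_eval (fun _ : Unit => bx z0.1 r r') ()).comp
      measurePreserving_snd).measure_preimage
      (measurableSet_box _ _ _).compl.nullMeasurableSet).le.trans (box_compl hr hr' hr'' _)

theorem lev_box {r r' : ℝ} (hr : 0 < r) {v z0 : (C₁ → ℝ) × (C₂ → ℝ)} (h : ‖v - z0‖ ≤ r') (ρ : ℝ)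
    (I : ℕ) (α : (ℤ → C₂ → ℝ) × (ℤ → C₁ → ℝ)) :
    (lev r ρ I α v).2 ∈ box z0.2 r r' ∧ (lev r ρ I α v).1 ∈ box z0.1 r r' :=
  ⟨mem_box hr ((norm_snd_le (v - z0)).trans h) _ _ _ _,
    mem_box hr ((norm_fst_le (v - z0)).trans h) _ _ _ _⟩

theorem core {M : Type} [MetricSpace M] [CompactSpace M] {ε : ℝ≥0∞} (hε : ε ≠ 0) {r R t0 : ℝ}
    (hr : 0 < r) (hR : 0 < R) (ht0 : 0 < t0) : ∃ t > 0, ∀ σ > 0, ∃ (ρ : ℝ) (I : ℕ),
    ∀ η γ : (C₁ → ℝ) × (C₂ → ℝ) → M, Continuous γ →
      ∀ a b, ‖a‖ ≤ R → ‖b‖ ≤ R → t0 ≤ dist (η a) (η b) →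
      ((PP C₂).prod (PP C₁)) {α | ∀ z z', t < dist (η z) (η z') →
        σ ≤ dist (γ (lev r ρ I α z)) (γ (lev r ρ I α z'))} ≤ ε := by
  have hδ : 0 < ε / 2 / 2 := ENNReal.half_pos (ENNReal.half_pos hε).ne'
  have hε' : ε = (ε / 2 / 2 + ε / 2 / 2) + (ε / 2 / 2 + ε / 2 / 2) := by
    rw [ENNReal.add_halves, ENNReal.add_halves]
  generalize ε / 2 / 2 = δ at hδ hε'
  have hr2 : (ENNReal.ofReal (r / 2))⁻¹ ≠ ⊤ := by simpa using hr
  have h1 : ∀ᶠ r' in 𝓝[>] (0 : ℝ), 2 * (2 * (((Fintype.card C₂ : ℝ≥0∞) + Fintype.card C₁) *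
      ((ENNReal.ofReal (r / 2))⁻¹ * (ENNReal.ofReal r' + ENNReal.ofReal r')))) ≤ δ :=
    small ((ENNReal.continuous_const_mul (by simp)).comp ((ENNReal.continuous_const_mul
      (by simp)).comp ((ENNReal.continuous_const_mul (by simp)).comp
        ((ENNReal.continuous_const_mul hr2).comp
          (ENNReal.continuous_ofReal.add ENNReal.continuous_ofReal))))) (by simpa using hδ)
  obtain ⟨r', ⟨⟨hκ₁, hκ₂⟩, hX⟩, hr'⟩ := ((((kappa r (Fintype.card C₁) (Fintype.card Unit)).and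
    (kappa r (Fintype.card C₂) (Fintype.card Unit))).and h1).and self_mem_nhdsWithin).exists
  have hr' : 0 < r' := hr'
  obtain ⟨N, hN⟩ := exists_nat_gt (2 * R / r')
  have hN0 : (0 : ℝ) < N := lt_trans (by positivity) hN
  refine ⟨t0 / N / 4, by positivity, fun σ hσ => ?_⟩
  set t := t0 / N / 4 with ht
  have ht' : 0 < t := by positivity
  obtain ⟨F, -, hF, hc⟩ := finite_cover_balls_of_compact (isCompact_univ (X := M))
    (show 0 < σ / 3 by positivity)
  lift F to Finset M using hF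
  obtain ⟨q, hqε⟩ : ∃ q : ℕ, 2 * (2 * ((F.card : ℝ≥0∞) * ((q + 1 : ℕ) : ℝ≥0∞)⁻¹)) ≤ δ := by
    have h1 : Tendsto (fun q : ℕ => 2 * (2 * ((F.card : ℝ≥0∞) * ((q + 1 : ℕ) : ℝ≥0∞)⁻¹))) atTop
        (𝓝 (2 * (2 * ((F.card : ℝ≥0∞) * 0)))) :=
      ENNReal.Tendsto.const_mul (ENNReal.Tendsto.const_mul (ENNReal.Tendsto.const_mul
        (ENNReal.tendsto_inv_nat_nhds_zero.comp (tendsto_add_atTop_nat 1)) (by simp)) (by simp))
        (by simp)
    exact (h1.eventually (ge_mem_nhds (by simpa using hδ))).exists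
  obtain ⟨r'', ⟨hκ₃, hκ₄⟩, hr''⟩ := (((kappa r (Fintype.card C₁) (Fintype.card (Fin (q + 1)))).and
    (kappa r (Fintype.card C₂) (Fintype.card (Fin (q + 1))))).and self_mem_nhdsWithin).exists
  have hr'' : 0 < r'' := hr''
  obtain ⟨N', hN'⟩ := exists_cluster (M := M) q ht'
  have h2 : ∀ n : ℕ, ∀ᶠ ρ in 𝓝[>] (0 : ℝ), 2 * ((n : ℝ≥0∞) ^ 2 *
      ((ENNReal.ofReal (r / 2))⁻¹ * ENNReal.ofReal (6 * ρ))) ≤ δ := fun n =>
    small ((ENNReal.continuous_const_mul (by simp)).comp ((ENNReal.continuous_const_mul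
      (by simp)).comp ((ENNReal.continuous_const_mul hr2).comp
        (ENNReal.continuous_ofReal.comp (by fun_prop))))) (by simpa using hδ)
  have h3 : ∀ᶠ ρ in 𝓝[>] (0 : ℝ), 3 * ρ * N' ≤ r'' :=
    (((by fun_prop : Continuous fun ρ : ℝ => 3 * ρ * N').tendsto 0).eventually
      (ge_mem_nhds (by simpa using hr''))).filter_mono nhdsWithin_le_nhds
  obtain ⟨ρ, ⟨⟨hρ0, hρ1⟩, hρ2⟩, hρ⟩ := ((((h2 (Fintype.card Unit)).and
    (h2 (Fintype.card (Fin (q + 1))))).and h3).and self_mem_nhdsWithin).exists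
  have hρ : 0 < ρ := hρ
  obtain ⟨I, hI⟩ := exists_nat_ge ((R + r' + r'' + r) / ρ)
  rw [div_le_iff₀' hρ] at hI
  refine ⟨ρ, I, fun η γ hγ a b ha hb hab => ?_⟩
  obtain ⟨a', b', ha', hb', hd⟩ := exists_step η ha hb (N := N) (by exact_mod_cast hN0)
  have hb' : ‖b' - a'‖ ≤ r' := hb'.trans (by
    rw [div_le_iff₀ hN0]
    rw [div_lt_iff₀ hr'] at hN
    linarith)
  have hd : 4 * t ≤ dist (η a') (η b') := by
    have : t0 / N ≤ dist (η a) (η b) / N := by gcongr
    linarith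
  obtain ⟨s, hs1, hs2⟩ : ∃ s : ℝ, |s| = 1 ∧ s * (b'.1 default - a'.1 default) ≤ 0 := by
    rcases le_total (b'.1 default) (a'.1 default) with h | h
    · exact ⟨1, abs_one, by linarith⟩
    · exact ⟨-1, by simp, by linarith⟩
  have hs3 : s * s = 1 := by rw [← abs_mul_abs_self, hs1, one_mul]
  set u : ℕ → (C₁ → ℝ) × (C₂ → ℝ) := fun k =>
    (a'.1 + fun _ => s * (3 * ρ * (k + 1)), a'.2) with hu
  have hu1 : ∀ k, (u k).1 default = a'.1 default + s * (3 * ρ * (k + 1)) := fun k => rfl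
  obtain ⟨o, k, hk, hko⟩ := hN' fun k => η (u k)
  obtain ⟨w, hw1, hw2, hw3⟩ : ∃ w : (C₁ → ℝ) × (C₂ → ℝ), s * (w.1 default - a'.1 default) ≤ 0 ∧
      ‖w - a'‖ ≤ r' ∧ 2 * t ≤ dist (η w) o := by
    by_cases h : 2 * t ≤ dist (η a') o
    · exact ⟨a', by simp, by simpa using hr'.le, h⟩
    · exact ⟨b', hs2, hb', by linarith [dist_triangle_right (η a') (η b') o]⟩
  set z : Fin (q + 1) → (C₁ → ℝ) × (C₂ → ℝ) := Fin.cons w fun j => u (k j) with hz
  have := bx_prob a'.1 hr hr''.le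
  have := bx_prob a'.2 hr hr''.le
  have hA := fun o => exch q (bx a'.2 r r'') (bx a'.1 r r'') hγ hσ o _ fun _ => rfl
  have hw4 : ∀ j, 3 * ρ ≤ |w.1 default - (u (k j)).1 default| := fun j => by
    rw [← one_mul |_|, ← hs1, ← abs_mul, hu1]
    refine le_trans ?_ (neg_le_abs _)
    have : s * (s * (3 * ρ * (k j + 1))) = 3 * ρ * (k j + 1) := by rw [← mul_assoc, hs3, one_mul]
    nlinarith [(Nat.cast_nonneg (k j) : (0 : ℝ) ≤ k j)]
  have hu2 : ∀ j, ‖u (k j) - a'‖ ≤ r'' := fun j => by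
    have h4 : (k j : ℝ) + 1 ≤ N' := by exact_mod_cast (hko j).1
    simp only [hu, Prod.norm_def, Prod.fst_sub, Prod.snd_sub,
      add_sub_cancel_left, sub_self, norm_zero, pi_norm_const]
    rw [norm_mul, Real.norm_eq_abs, hs1, one_mul, Real.norm_of_nonneg (by positivity)]
    exact max_le (by nlinarith) hr''.le
  have hw5 : ‖w‖ + r ≤ ρ * I := by linarith [norm_sub_norm_le w a']
  have e1 := tuple_le (I := I) (z := fun _ : Unit => w) hr hr'.le hρ a' (fun i j h => absurd rfl h)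
    (fun _ => hw5) (A := ((fun p => p.1 ()) ⁻¹' (box a'.2 r r'')ᶜ ∪
      (fun p => p.2 ()) ⁻¹' (box a'.1 r r'')ᶜ) ∩ _)
    ((((measurableSet_box _ _ _).compl.preimage (by fun_prop)).union
      ((measurableSet_box _ _ _).compl.preimage (by fun_prop))).inter
      ((MeasurableSet.univ_pi fun _ => measurableSet_box _ _ _).prod
        (.univ_pi fun _ => measurableSet_box _ _ _))) inter_subset_right
  have e2 := tuple_le (I := I) (z := z) hr hr''.le hρ a' ?_ ?_
    ((F.measurableSet_biUnion fun o _ => (hA o).1).inter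
      ((MeasurableSet.univ_pi fun _ => measurableSet_box _ _ _).prod
        (.univ_pi fun _ => measurableSet_box _ _ _))) inter_subset_right
  · refine (measure_mono ?_).trans ((measure_union_le _ _).trans ((add_le_add e1 e2).trans ?_))
    · intro α hα
      by_cases h : (lev r ρ I α w).2 ∈ box a'.2 r r'' ∧ (lev r ρ I α w).1 ∈ box a'.1 r r''
      · have h5 : ∀ j, (lev r ρ I α (z j)).2 ∈ box a'.2 r r'' ∧
            (lev r ρ I α (z j)).1 ∈ box a'.1 r r'' := fun j => by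
          rcases Fin.eq_zero_or_eq_succ j with rfl | ⟨j, rfl⟩
          · exact h
          · exact lev_box hr (hu2 j) ρ I α
        obtain ⟨o', ho', h6⟩ := mem_iUnion₂.1 (hc (mem_univ (γ (lev r ρ I α (z 0)))))
        refine Or.inr ⟨mem_iUnion₂.2 ⟨o', ho', le_of_lt h6, fun i hi => hα (z 0) (z i) ?_⟩,
          fun j _ => (h5 j).1, fun j _ => (h5 j).2⟩
        obtain ⟨i, rfl⟩ := Fin.exists_succ_eq.2 hi
        simp only [hz, Fin.cons_succ, Fin.cons_zero]
        linarith [dist_triangle (η w) (η (u (k i))) o, (hko i).2]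
      · exact Or.inl ⟨not_and_or.1 h, fun _ _ => (lev_box hr hw2 ρ I α).1,
          fun _ _ => (lev_box hr hw2 ρ I α).2⟩
    · have e3 := (measure_mono (inter_subset_left (t := (univ.pi fun _ => box a'.2 r r') ×ˢ
        univ.pi fun _ => box a'.1 r r'))).trans (out_le hr hr'.le hr''.le a')
      have e4 := (measure_mono (inter_subset_left (t := (univ.pi fun _ => box a'.2 r r'') ×ˢ
        univ.pi fun _ => box a'.1 r r''))).trans ((measure_biUnion_finset_le F _).trans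
          (Finset.sum_le_card_nsmul _ _ _ fun o _ => (hA o).2))
      rw [nsmul_eq_mul] at e4
      rw [mul_add, mul_add, hε']
      exact add_le_add (add_le_add (le_trans (by gcongr) hρ0) (le_trans (by gcongr) hX))
        (add_le_add (le_trans (by gcongr) hρ1) (le_trans (by gcongr) hqε))
  · intro i j hij
    rcases Fin.eq_zero_or_eq_succ i with rfl | ⟨i, rfl⟩ <;>
      rcases Fin.eq_zero_or_eq_succ j with rfl | ⟨j, rfl⟩ <;>
      simp only [hz, Fin.cons_succ, Fin.cons_zero]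
    · exact absurd rfl hij
    · exact hw4 j
    · rw [abs_sub_comm]
      exact hw4 i
    · have h4 : (1 : ℝ) ≤ |(k i : ℝ) - k j| := by
        have : (k i : ℤ) - k j ≠ 0 := sub_ne_zero.2 fun h =>
          hij (congrArg Fin.succ (hk (by exact_mod_cast h)))
        exact_mod_cast Int.one_le_abs this
      rw [hu1, hu1, show a'.1 default + s * (3 * ρ * (k i + 1)) - (a'.1 default +
        s * (3 * ρ * (k j + 1))) = s * (3 * ρ * (k i - k j)) by ring, abs_mul, hs1, one_mul,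
        abs_mul, abs_of_pos (by positivity)]
      nlinarith
  · intro j
    rcases Fin.eq_zero_or_eq_succ j with rfl | ⟨j, rfl⟩
    · exact hw5
    · simp only [hz, Fin.cons_succ]
      linarith [norm_sub_norm_le (u (k j)) a', hu2 j]

end Pool.Agent.MP_4045d2_lc.Sc
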