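import Pool.Agent.MP_4045d2_lc.ScB

/-! Charts, extension by the identity, and the random homeomorphism. -/

set_option autoImplicit false

open Set MeasureTheory Function Filter Topology Metric
open scoped ENNReal

namespace Pool.Agent.MP_4045d2_lc.Sc

section ext

variable {V M : Type} [NormedAddCommGroup V] [MetricSpace M]

/-- a chart in which bounded sets shrink at infinity -/
structure Ch (ψ : V → M) : Prop where
  emb : IsOpenEmbedding ψ
  est : ∀ ε > 0, ∃ δ > 0, ∀ x y, ‖y - x‖ ≤ δ * max 1 ‖x‖ → dist (ψ y) (ψ x) < ε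

theorem ball_est [NormedSpace ℝ V] (x y : V) :
    ‖OpenPartialHomeomorph.univUnitBall y - OpenPartialHomeomorph.univUnitBall x‖ * max 1 ‖x‖ ≤
      2 * ‖y - x‖ := by
  have h1 : ∀ v : V, max 1 ‖v‖ ≤ √(1 + ‖v‖ ^ 2) := fun v =>
    max_le (Real.le_sqrt_of_sq_le (by nlinarith [sq_nonneg ‖v‖]))
      (Real.le_sqrt_of_sq_le (by linarith))
  have h2 : ∀ v : V, √(1 + ‖v‖ ^ 2) ^ 2 = 1 + ‖v‖ ^ 2 := fun v => Real.sq_sqrt (by positivity)
  simp only [OpenPartialHomeomorph.univUnitBall_apply]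
  obtain ⟨a1, a2⟩ := max_le_iff.1 (h1 x)
  obtain ⟨b1, b2⟩ := max_le_iff.1 (h1 y)
  have a3 := h2 x
  have b3 := h2 y
  have a4 := h1 x
  generalize √(1 + ‖x‖ ^ 2) = a at *
  generalize √(1 + ‖y‖ ^ 2) = b at *
  have ha : 0 < a := by linarith
  have hb : 0 < b := by linarith
  have h3 : |a - b| ≤ ‖y - x‖ := by
    have k := abs_le.1 (abs_norm_sub_norm_le y x)
    have k0 := norm_nonneg (y - x)
    have k1 := norm_nonneg x
    have k2 := norm_nonneg y
    rw [abs_le]
    constructor <;> by_contra h <;> nlinarith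
  have h4 : a • (b⁻¹ • y - a⁻¹ • x) = (y - x) + ((a - b) * b⁻¹) • y := by
    match_scalars <;> field_simp <;> ring
  have h5 : ‖((a - b) * b⁻¹) • y‖ ≤ ‖y - x‖ := by
    rw [norm_smul, Real.norm_eq_abs, abs_mul, abs_of_pos (inv_pos.2 hb), mul_assoc]
    refine le_trans (mul_le_of_le_one_right (abs_nonneg _) ?_) h3
    rwa [inv_mul_le_iff₀ hb, mul_one]
  have h6 := norm_add_le (y - x) (((a - b) * b⁻¹) • y)
  rw [← h4, norm_smul, Real.norm_of_nonneg ha.le] at h6
  nlinarith [norm_nonneg (b⁻¹ • y - a⁻¹ • x)]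

theorem exists_ch [NormedSpace ℝ V] [ProperSpace V] {E : Type} [NormedAddCommGroup E]
    [NormedSpace ℝ E] [ChartedSpace E M] (Λ : V ≃L[ℝ] E) (m : M) :
    ∃ ψ : V → M, Ch ψ ∧ ψ 0 = m := by
  set e := chartAt E m
  have h0 : {w : V | e m + Λ w ∈ e.target} ∈ 𝓝 (0 : V) :=
    (e.open_target.preimage (by fun_prop)).mem_nhds (by simp [e])
  obtain ⟨δ, hδ, h1⟩ := nhds_basis_closedBall.mem_iff.1 h0
  set A : V ≃ₜ E := ((Homeomorph.smulOfNeZero δ hδ.ne').trans Λ.toHomeomorph).trans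
    (Homeomorph.addLeft (e m)) with hA
  have h2 : MapsTo A (closedBall 0 1) e.target := fun w hw => h1 (by
    rw [mem_closedBall_zero_iff] at hw ⊢
    show ‖δ • w‖ ≤ δ
    rw [norm_smul, Real.norm_of_nonneg hδ.le]
    nlinarith)
  set β : OpenPartialHomeomorph V V := OpenPartialHomeomorph.univUnitBall
  have h3 : ∀ v, β v ∈ closedBall (0 : V) 1 := fun v =>
    ball_subset_closedBall (β.map_source (mem_univ v))
  have h4 : IsOpenEmbedding β := β.isOpenEmbedding rfl
  have h5 : ContinuousOn (fun w => e.symm (A w)) (closedBall 0 1) :=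
    e.continuousOn_symm.comp A.continuous.continuousOn h2
  refine ⟨fun v => e.symm (A (β v)), ⟨.of_continuous_injective_isOpenMap
    (h5.comp_continuous h4.continuous h3) (fun v w h => h4.injective (A.injective
      (e.symm.injOn (h2 (h3 v)) (h2 (h3 w)) h))) fun U hU => ?_, fun ε hε => ?_⟩, ?_⟩
  · rw [← image_image (fun w => e.symm w) fun v => A (β v), ← image_image A β]
    refine e.isOpen_image_symm_of_subset_target (A.isOpenMap _ (h4.isOpenMap _ hU)) ?_
    rintro _ ⟨_, ⟨v, -, rfl⟩, rfl⟩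
    exact h2 (h3 v)
  · obtain ⟨d, hd, h6⟩ := Metric.uniformContinuousOn_iff.1
      ((isCompact_closedBall _ _).uniformContinuousOn_of_continuous h5) ε hε
    refine ⟨d / 4, by positivity, fun x y h => h6 _ (h3 y) _ (h3 x) ?_⟩
    have h7 := ball_est x y
    have h8 : 1 ≤ max 1 ‖x‖ := le_max_left _ _
    rw [dist_eq_norm]
    by_contra h9
    nlinarith [not_lt.1 h9]
  · simp [β, hA, e]

/-- extension by the identity -/
noncomputable def ext (ψ : V → M) (T : V → V) : M → M := Function.extend ψ (ψ ∘ T) id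

variable {ψ : V → M}

theorem Ch.ext_apply (h : Ch ψ) (T : V → V) (v : V) : ext ψ T (ψ v) = ψ (T v) :=
  h.emb.injective.extend_apply _ _ _

omit [NormedAddCommGroup V] [MetricSpace M] in
theorem ext_out (T : V → V) {m : M} (h : ¬ ∃ v, ψ v = m) : ext ψ T m = m :=
  extend_apply' _ _ _ h

theorem Ch.ext_comp (h : Ch ψ) (T T' : V → V) : ext ψ (T ∘ T') = ext ψ T ∘ ext ψ T' := by
  funext m
  by_cases hm : ∃ v, ψ v = m
  · obtain ⟨v, rfl⟩ := hm
    simp only [comp_apply, h.ext_apply]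
  · simp only [comp_apply, ext_out _ hm]

theorem Ch.ext_id (h : Ch ψ) : ext ψ id = id := by
  funext m
  by_cases hm : ∃ v, ψ v = m
  · obtain ⟨v, rfl⟩ := hm
    exact h.ext_apply _ _
  · exact ext_out _ hm

theorem Ch.ext_bij (h : Ch ψ) {T : V → V} (hT : Bijective T) : Bijective (ext ψ T) := by
  obtain ⟨S, h1, h2⟩ := bijective_iff_has_inverse.1 hT
  refine bijective_iff_has_inverse.2 ⟨ext ψ S, fun m => ?_, fun m => ?_⟩
  · rw [← comp_apply (f := ext ψ S), ← h.ext_comp, h1.comp_eq_id, h.ext_id, id]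
  · rw [← comp_apply (f := ext ψ T), ← h.ext_comp, h2.comp_eq_id, h.ext_id, id]

theorem Ch.ext_cont [ProperSpace V] (h : Ch ψ) {P : Type} [TopologicalSpace P] {T : P → V → V}
    (hT : Continuous fun q : P × V => T q.1 q.2) (hb : ∀ p v, ‖T p v - v‖ ≤ 1) :
    Continuous fun q : P × M => ext ψ (T q.1) q.2 := by
  refine continuous_iff_continuousAt.2 fun ⟨p, m⟩ => ?_
  by_cases hm : ∃ v, ψ v = m
  · obtain ⟨v, rfl⟩ := hm
    refine ((IsOpenEmbedding.id.prodMap h.emb).continuousAt_iff (x := (p, v))).1 ?_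
    have : (fun q : P × M => ext ψ (T q.1) q.2) ∘ Prod.map id ψ = fun q => ψ (T q.1 q.2) :=
      funext fun q => h.ext_apply _ _
    rw [this]
    exact (h.emb.continuous.comp hT).continuousAt
  · rw [ContinuousAt, ext_out _ hm, Metric.tendsto_nhds]
    intro ε hε
    obtain ⟨δ, hδ, h1⟩ := h.est (ε / 2) (by positivity)
    have h2 : (ψ '' closedBall 0 δ⁻¹)ᶜ ∈ 𝓝 m :=
      ((isCompact_closedBall _ _).image h.emb.continuous).isClosed.isOpen_compl.mem_nhds
        fun ⟨v, _, hv⟩ => hm ⟨v, hv⟩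
    filter_upwards [continuousAt_snd.eventually h2,
      continuousAt_snd.eventually (ball_mem_nhds m (half_pos hε))] with ⟨p', m'⟩ k1 k2
    have k3 : dist m' m < ε / 2 := k2
    by_cases hm' : ∃ v, ψ v = m'
    · obtain ⟨v, rfl⟩ := hm'
      have k4 : δ⁻¹ ≤ ‖v‖ := not_lt.1 fun k => k1 ⟨v, mem_closedBall_zero_iff.2 k.le, rfl⟩
      have k5 := h1 v (T p' v) ((hb p' v).trans (by
        rw [← inv_mul_le_iff₀ hδ, mul_one]
        exact k4.trans (le_max_right _ _)))
      rw [h.ext_apply]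
      linarith [dist_triangle (ψ (T p' v)) (ψ v) m]
    · rw [ext_out _ hm']
      linarith

end ext

section comp

variable {M : Type}

/-- the composition of `k a, ..., k (a + j - 1)` -/
def cp (k : ℕ → M → M) (a : ℕ) : ℕ → M → M
  | 0 => id
  | j + 1 => k (a + j) ∘ cp k a j

theorem cp_add (k : ℕ → M → M) (a i j : ℕ) : cp k a (i + j) = cp k (a + i) j ∘ cp k a i := by
  induction j with
  | zero => rfl
  | succ j ih => rw [← add_assoc, cp, ih, cp, add_assoc]; rfl

theorem cp_congr {k k' : ℕ → M → M} {a j : ℕ} (h : ∀ i < j, k (a + i) = k' (a + i)) :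
    cp k a j = cp k' a j := by
  induction j with
  | zero => rfl
  | succ j ih => rw [cp, cp, h j j.lt_succ_self, ih fun i hi => h i (hi.trans j.lt_succ_self)]

theorem cp_bij {k : ℕ → M → M} (h : ∀ i, Bijective (k i)) (a j : ℕ) : Bijective (cp k a j) := by
  induction j with
  | zero => exact bijective_id
  | succ j ih => exact (h _).comp ih

theorem cp_id (a j : ℕ) : cp (fun _ => (id : M → M)) a j = id := by
  induction j with
  | zero => rfl
  | succ j ih => rw [cp, ih]; rfl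

theorem cp_cont [TopologicalSpace M] {P : Type} [TopologicalSpace P] {k : P → ℕ → M → M}
    (h : ∀ i, Continuous fun q : P × M => k q.1 i q.2) (a j : ℕ) :
    Continuous fun q : P × M => cp (k q.1) a j q.2 := by
  induction j with
  | zero => exact continuous_snd
  | succ j ih => exact (h _).comp (continuous_fst.prodMk ih)

theorem cp_dist [MetricSpace M] {k : ℕ → M → M} {c : ℝ} {j : ℕ}
    (h : ∀ i < j, ∀ m, dist (k i m) m ≤ c) (m : M) : dist (cp k 0 j m) m ≤ j * c := by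
  induction j with
  | zero => simp [cp]
  | succ j ih =>
    have h1 := h j j.lt_succ_self (cp k 0 j m)
    have h2 := ih fun i hi => h i (hi.trans j.lt_succ_self)
    have h3 := dist_triangle (k j (cp k 0 j m)) (cp k 0 j m) m
    simp only [cp, zero_add, comp_apply]
    push_cast
    linarith

end comp

section sums

variable {C : Type} [Fintype C]

/-- the sum of the fields of all levels -/
noncomputable def WW (c : ℝ) (ρ : ℕ → ℝ) (I : ℕ → ℕ) (θ : ℕ → ℤ → C → ℝ) (t : ℝ) : C → ℝ :=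
  ∑' m, (c / 2 / 2 ^ m) • fld (ρ m) (I m) (θ m) t

theorem term_le {c : ℝ} (hc : 0 ≤ c) (ρ : ℝ) (I m : ℕ) (ξ : ℤ → C → ℝ) (t : ℝ) :
    ‖(c / 2 / 2 ^ m) • fld ρ I ξ t‖ ≤ c / 2 / 2 ^ m := by
  rw [norm_smul, Real.norm_of_nonneg (by positivity)]
  exact mul_le_of_le_one_right (by positivity) ((norm_fld _ _ _ _).trans (by norm_num))

theorem WW_le {c : ℝ} (hc : 0 ≤ c) (ρ : ℕ → ℝ) (I : ℕ → ℕ) (θ : ℕ → ℤ → C → ℝ) (t : ℝ) :
    ‖WW c ρ I θ t‖ ≤ c :=
  tsum_of_norm_bounded (hasSum_geometric_two' c) fun _ => term_le hc _ _ _ _ _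

theorem WW_cont {c : ℝ} (hc : 0 ≤ c) (ρ : ℕ → ℝ) (I : ℕ → ℕ) :
    Continuous fun p : (ℕ → ℤ → C → ℝ) × ℝ => WW c ρ I p.1 p.2 := by
  refine continuous_tsum (fun m => ?_) (summable_geometric_two' c)
    fun _ _ => term_le hc _ _ _ _ _
  have := continuous_fld (C := C) (ρ m) (I m)
  fun_prop

theorem WW_update {c : ℝ} (hc : 0 ≤ c) (ρ : ℕ → ℝ) (I : ℕ → ℕ) (θ : ℕ → ℤ → C → ℝ) (m : ℕ)
    (a : ℤ → C → ℝ) (t : ℝ) : WW c ρ I (update θ m a) t =
      (c / 2 / 2 ^ m) • fld (ρ m) (I m) a t + WW c ρ I (update θ m 0) t := by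
  have h : ∀ a : ℤ → C → ℝ, WW c ρ I (update θ m a) t = (c / 2 / 2 ^ m) • fld (ρ m) (I m) a t +
      ∑' i, if i = m then 0 else (c / 2 / 2 ^ i) • fld (ρ i) (I i) (θ i) t := fun a => by
    rw [WW, (Summable.of_norm_bounded (summable_geometric_two' c)
      fun _ => term_le hc _ _ _ _ _).tsum_eq_add_tsum_ite m, update_self]
    congr 1
    refine tsum_congr fun i => ?_
    split_ifs with hi
    · rfl
    · rw [update_of_ne hi]
  have h0 : fld (ρ m) (I m) (0 : ℤ → C → ℝ) t = 0 := by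
    funext k
    simp [fld, tri]
  rw [h a, h 0, h0, smul_zero, zero_add]

end sums

variable {C₁ C₂ : Type} [Fintype C₁] [Fintype C₂] [Inhabited C₁] [Inhabited C₂]

omit [Fintype C₁] [Fintype C₂] in
theorem shear_split (U U' : ℝ → C₁ → ℝ) (W W' : ℝ → C₂ → ℝ) :
    shear (fun t => U t + U' t) (fun t => W t + W' t) = shear U' 0 ∘ shear U W ∘ shear 0 W' := by
  funext v
  simp only [shear, comp_apply, Pi.zero_apply, add_zero, add_assoc, add_comm (W' _)]

omit [Fintype C₁] [Fintype C₂] in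
theorem shear_bij (U : ℝ → C₁ → ℝ) (W : ℝ → C₂ → ℝ) : Bijective (shear U W) :=
  bijective_iff_has_inverse.2 ⟨fun v => (v.1 - U (v.2 default),
    v.2 - W ((v.1 - U (v.2 default)) default)), fun v => by simp [shear], fun v => by simp [shear]⟩

theorem shear_le {U : ℝ → C₁ → ℝ} {W : ℝ → C₂ → ℝ} {c : ℝ} (hU : ∀ t, ‖U t‖ ≤ c)
    (hW : ∀ t, ‖W t‖ ≤ c) (v : (C₁ → ℝ) × (C₂ → ℝ)) : ‖shear U W v - v‖ ≤ c := by
  simp only [shear, Prod.norm_def, Prod.fst_sub, Prod.snd_sub, add_sub_cancel_left]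
  exact max_le (hU _) (hW _)

end Pool.Agent.MP_4045d2_lc.Sc
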