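import Pool.Agent.MP_4045d2_lc.ScC

/-! The random homeomorphism and the Haar null hull. -/

set_option autoImplicit false

open Set MeasureTheory Function Filter Topology Metric
open scoped ENNReal

namespace Pool.Agent.MP_4045d2_lc.Sc

theorem exists_atlas {V M : Type} [NormedAddCommGroup V] [ProperSpace V] [MetricSpace M]
    [CompactSpace M] [Nonempty M] [Infinite M] (h : ∀ m : M, ∃ ψ : V → M, Ch ψ ∧ ψ 0 = m) :
    ∃ (L : ℕ) (ψ : ℕ → V → M) (c lam t0 : ℝ), (∀ l, Ch (ψ l)) ∧ 0 < c ∧ c ≤ 1 ∧ 0 ≤ lam ∧ 0 < t0 ∧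
      (∀ l < L, ∀ x y, ‖y - x‖ ≤ c → dist (ψ l y) (ψ l x) ≤ lam) ∧
      (∀ l < L, ∀ m ∈ ψ l '' ball 0 1, ∀ m', dist m' m ≤ L * lam → m' ∈ ψ l '' ball 0 2) ∧
      ∀ f : M → M, Surjective f → ∃ l < L, ∃ p ∈ ψ l '' ball 0 1, ∃ p' ∈ ψ l '' ball 0 1,
        t0 ≤ dist (f p) (f p') := by
  choose χ hχ hχ0 using h
  obtain ⟨F, hF⟩ := finite_cover_nhds (U := fun m => χ m '' ball 0 1) fun m =>
    ((hχ m).emb.isOpenMap _ isOpen_ball).mem_nhds ⟨0, mem_ball_self one_pos, hχ0 m⟩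
  set ψ : ℕ → V → M := fun l => χ (F.toList.getD l (Classical.arbitrary M)) with hψ
  have h1 : ∀ l, Ch (ψ l) := fun l => hχ _
  set L := F.toList.length
  have h2 : ∀ p : M, ∃ l : Fin L, p ∈ ψ l '' ball 0 1 := fun p => by
    obtain ⟨m, hm, hp⟩ := mem_iUnion₂.1 (hF.ge (mem_univ p))
    obtain ⟨l, rfl⟩ := List.mem_iff_get.1 (Finset.mem_toList.2 hm)
    refine ⟨l, ?_⟩
    simpa only [hψ, List.getD_eq_getElem _ _ l.2, List.get_eq_getElem] using hp
  have h3 : ∀ᶠ lam in 𝓝[>] (0 : ℝ), ∀ l : Fin L, ∀ m ∈ ψ l '' ball 0 1, ∀ m',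
      dist m' m ≤ L * lam → m' ∈ ψ l '' ball 0 2 := eventually_all.2 fun l => by
    obtain ⟨δ, hδ, k⟩ := ((isCompact_closedBall (0 : V) 1).image
      (h1 l).emb.continuous).exists_cthickening_subset_open
      ((h1 l).emb.isOpenMap _ isOpen_ball) (image_mono (closedBall_subset_ball one_lt_two))
    filter_upwards [(((by fun_prop : Continuous fun lam : ℝ => L * lam).tendsto 0).eventually
      (eventually_le_nhds (b := δ) (by simpa using hδ))).filter_mono nhdsWithin_le_nhds] with lam k1 m hm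
      m' k2
    exact k (mem_cthickening_of_dist_le m' m δ _ (image_mono ball_subset_closedBall hm)
      (k2.trans k1))
  obtain ⟨lam, h3, hlam⟩ := (h3.and self_mem_nhdsWithin).exists
  have hlam : 0 < lam := hlam
  have h4 : ∀ᶠ c in 𝓝[>] (0 : ℝ), ∀ l : Fin L, ∀ x y, ‖y - x‖ ≤ c →
      dist (ψ l y) (ψ l x) ≤ lam := eventually_all.2 fun l => by
    obtain ⟨δ, hδ, k⟩ := (h1 l).est lam hlam
    filter_upwards [mem_nhdsWithin_of_mem_nhds (ge_mem_nhds hδ)] with c k1 x y k2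
    exact (k x y ((k2.trans k1).trans (le_mul_of_one_le_right hδ.le (le_max_left _ _)))).le
  obtain ⟨c, ⟨h4, hc1⟩, hc⟩ := ((h4.and (mem_nhdsWithin_of_mem_nhds
    (ge_mem_nhds one_pos))).and self_mem_nhdsWithin).exists
  set y : Fin (L + 1) → M := fun i => Infinite.natEmbedding M i
  have h5 : ∀ᶠ t in 𝓝[>] (0 : ℝ), ∀ i j, i ≠ j → t ≤ dist (y i) (y j) :=
    eventually_all.2 fun i => eventually_all.2 fun j => by
      by_cases hij : i = j
      · exact .of_forall fun _ k => absurd hij k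
      · filter_upwards [mem_nhdsWithin_of_mem_nhds (ge_mem_nhds (dist_pos.2
          fun k : y i = y j => hij (Fin.ext ((Infinite.natEmbedding M).injective k))))] with t k _
        exact k
  obtain ⟨t0, h5, ht0⟩ := (h5.and self_mem_nhdsWithin).exists
  refine ⟨L, ψ, c, lam, t0, h1, hc, hc1, hlam.le, ht0, fun l hl => h4 ⟨l, hl⟩,
    fun l hl => h3 ⟨l, hl⟩, fun f hf => ?_⟩
  choose p hp using fun i => hf (y i)
  choose l hl using fun i => h2 (p i)
  obtain ⟨i, j, hij, k⟩ := Fintype.exists_ne_map_eq_of_card_lt l (by simp)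
  exact ⟨l i, (l i).2, p i, hl i, p j, k ▸ hl j, by rw [hp, hp]; exact h5 i j hij⟩

variable {C₁ C₂ : Type} [Fintype C₁] [Fintype C₂] [Inhabited C₁] [Inhabited C₂]

/-- the modulus implication -/
def Pr {M : Type} [MetricSpace M] (s t : ℝ) (f h : M → M) : Prop :=
  ∀ z z', t < dist (f z) (f z') → s ≤ dist (h z) (h z')

theorem closed_Pr {M P : Type} [MetricSpace M] [TopologicalSpace P] (s t : ℝ) {f h : P → M → M}
    (hf : ∀ z, Continuous fun p => f p z) (hh : ∀ z, Continuous fun p => h p z) :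
    IsClosed {p | Pr s t (f p) (h p)} := by
  simp only [Pr, ofPred_forall, imp_iff_not_or, not_lt, ofPred_or]
  exact isClosed_iInter fun z => isClosed_iInter fun z' =>
    (isClosed_le ((hf z).dist (hf z')) continuous_const).union
      (isClosed_le continuous_const ((hh z).dist (hh z')))

theorem cont_inv {M P : Type} [MetricSpace M] [CompactSpace M] [TopologicalSpace P]
    {F : P → M → M} (hF : Continuous fun q : P × M => F q.1 q.2) (hb : ∀ p, Bijective (F p)) :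
    Continuous fun q : P × M => surjInv (hb q.1).2 q.2 := by
  refine continuous_iff_isClosed.2 fun S hS => ?_
  have h1 : IsClosed {w : (P × M) × M | F w.1.1 w.2 = w.1.2 ∧ w.2 ∈ S} :=
    (isClosed_eq (hF.comp (f := fun w : (P × M) × M => (w.1.1, w.2)) (by fun_prop))
      (by fun_prop)).inter (hS.preimage continuous_snd)
  convert isClosedMap_fst_of_compactSpace _ h1 using 1
  ext q
  refine ⟨fun h => ⟨(q, _), ⟨surjInv_eq (hb q.1).2 q.2, h⟩, rfl⟩, ?_⟩
  rintro ⟨⟨q, z⟩, ⟨k1, k2⟩, rfl⟩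
  show surjInv (hb q.1).2 q.2 ∈ S
  rw [← show F q.1 z = q.2 from k1, leftInverse_surjInv (hb q.1) z]
  exact k2

theorem exists_random {M : Type} [MetricSpace M] [CompactSpace M] [Nonempty M] [Infinite M]
    (h : ∀ m : M, ∃ ψ : (C₁ → ℝ) × (C₂ → ℝ) → M, Ch ψ ∧ ψ 0 = m) {ε : ℕ → ℝ≥0∞}
    (hε : ∀ m, ε m ≠ 0) : ∃ t : ℕ → ℝ, (∀ m, 0 < t m) ∧ ∀ s : ℕ → ℝ, (∀ m, 0 < s m) →
    ∃ (P : Measure (ℕ × ℕ → (ℤ → C₂ → ℝ) × (ℤ → C₁ → ℝ))) (_ : IsProbabilityMeasure P)
      (k : (ℕ × ℕ → (ℤ → C₂ → ℝ) × (ℤ → C₁ → ℝ)) → C(M, M)), Continuous k ∧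
      (∀ ω, (k ω).HomotopicWith (ContinuousMap.id M) fun g => Bijective g) ∧
      ∀ (m : ℕ) (γ f : M → M), Continuous γ → Surjective f →
        P {ω | Pr (s m) (t m) (f ∘ k ω) γ} ≤ ε m := by
  obtain ⟨L, ψ, c, lam, t0, hψ, hc, hc1, hlam, ht0, h1, h2, h3⟩ := exists_atlas h
  choose t ht hco using fun m : ℕ => core (C₁ := C₁) (C₂ := C₂) (M := M) (hε m)
    (show 0 < c / 2 / 2 ^ m by positivity) three_pos ht0
  refine ⟨t, ht, fun s hs => ?_⟩
  choose ρ I hco using fun m => hco m (s m) (hs m)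
  let T : unitInterval × (ℕ × ℕ → (ℤ → C₂ → ℝ) × (ℤ → C₁ → ℝ)) → ℕ →
      (C₁ → ℝ) × (C₂ → ℝ) → (C₁ → ℝ) × (C₂ → ℝ) := fun p l =>
    shear (fun x => (p.1 : ℝ) • WW c ρ I (fun m => (p.2 (l, m)).2) x)
      (fun x => (p.1 : ℝ) • WW c ρ I (fun m => (p.2 (l, m)).1) x)
  have hs1 : ∀ (σ : unitInterval) {C : Type} [Fintype C] (θ : ℕ → ℤ → C → ℝ) x,
      ‖(σ : ℝ) • WW c ρ I θ x‖ ≤ c := fun σ C _ θ x => by
    rw [norm_smul, Real.norm_of_nonneg σ.2.1]
    exact (mul_le_of_le_one_left (norm_nonneg _) σ.2.2).trans (WW_le hc.le _ _ _ _)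
  have hT : ∀ p l v, ‖T p l v - v‖ ≤ c := fun p l => shear_le (hs1 _ _) (hs1 _ _)
  have c1 := WW_cont (C := C₁) hc.le ρ I
  have c2 := WW_cont (C := C₂) hc.le ρ I
  let kk := fun p l => ext (ψ l) (T p l)
  have hk : Continuous fun q : (unitInterval × (ℕ × ℕ → (ℤ → C₂ → ℝ) × (ℤ → C₁ → ℝ))) × M =>
      cp (kk q.1) 0 L q.2 := cp_cont (fun l => (hψ l).ext_cont (T := fun p => T p l)
    (by simp only [T, shear]; fun_prop) fun p v => (hT p l v).trans hc1) 0 L
  have hb : ∀ p l, Bijective (kk p l) := fun p l => (hψ l).ext_bij (shear_bij _ _)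
  have hd : ∀ p, ∀ l < L, ∀ x, dist (kk p l x) x ≤ lam := fun p l hl x => by
    by_cases hx : ∃ v, ψ l v = x
    · obtain ⟨v, rfl⟩ := hx
      simp only [kk, (hψ l).ext_apply]
      exact h1 l hl _ _ (hT p l v)
    · simpa only [kk, ext_out _ hx, dist_self] using hlam
  have hb' : ∀ p, Bijective (cp (kk p) 0 L) := fun p => cp_bij (hb p) 0 L
  have hk' := cont_inv (F := fun p => cp (kk p) 0 L) hk hb'
  let k := fun ω => cp (kk (1, ω)) 0 L
  let k' : C(ℕ × ℕ → (ℤ → C₂ → ℝ) × (ℤ → C₁ → ℝ), C(M, M)) :=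
    ContinuousMap.curry ⟨fun q => surjInv (hb' (1, q.1)).2 q.2,
      hk'.comp ((continuous_const.prodMk continuous_fst).prodMk continuous_snd)⟩
  refine ⟨Measure.infinitePi fun _ => (PP C₂).prod (PP C₁), inferInstance, k', k'.continuous,
    fun ω => .symm ⟨⟨⟨⟨fun q => surjInv (hb' (q.1, ω)).2 q.2,
      hk'.comp ((continuous_fst.prodMk continuous_const).prodMk continuous_snd)⟩, fun x => ?_,
      fun x => rfl⟩, fun σ => (Equiv.ofBijective _ (hb' (σ, ω))).symm.bijective⟩⟩,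
    fun m γ f hγ hf => ?_⟩
  · have : kk (0, ω) = fun _ => id := funext fun l => by
      rw [← (hψ l).ext_id]
      refine congrArg (ext (ψ l)) (funext fun v => ?_)
      simp [T, shear]
    refine (hb' (0, ω)).1 ((surjInv_eq (hb' (0, ω)).2 x).trans ?_)
    show x = cp (kk (0, ω)) 0 L x
    rw [this, cp_id, id]
  refine le_trans (measure_mono (t := {ω | Pr (s m) (t m) f (γ ∘ k ω)}) fun ω hω z z' k1 =>
    hω (k ω z) (k ω z') ?_) ?_
  · have e : ∀ z, k' ω (k ω z) = z := leftInverse_surjInv (hb' (1, ω))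
    simpa only [comp_apply, e] using k1
  obtain ⟨l, hl, p, hp, p', hp', hpp⟩ := h3 f hf
  have : BorelSpace ((ℤ → C₂ → ℝ) × (ℤ → C₁ → ℝ)) := Prod.borelSpace
  have : BorelSpace (ℕ × ℕ → (ℤ → C₂ → ℝ) × (ℤ → C₁ → ℝ)) := Pi.borelSpace
  refine meas_update _ (l, m) (closed_Pr (f := fun _ => f) (h := fun ω => γ ∘ k ω) _ _
    (fun _ => continuous_const) fun z => hγ.comp (hk.comp ((continuous_const.prodMk
      continuous_id).prodMk continuous_const))).measurableSet fun ω => ?_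
  obtain ⟨j, rfl⟩ := Nat.exists_eq_add_of_lt hl
  set U := WW c ρ I (update (fun i => (ω (l, i)).2) m 0)
  set W := WW c ρ I (update (fun i => (ω (l, i)).1) m 0)
  set H := ext (ψ l) (shear (0 : ℝ → C₁ → ℝ) W) ∘ cp (kk (1, ω)) 0 l with hH
  set A := cp (kk (1, ω)) (l + 1) j ∘ ext (ψ l) (shear U (0 : ℝ → C₂ → ℝ)) with hA
  have hHb : Bijective H := ((hψ l).ext_bij (shear_bij _ _)).comp (cp_bij (hb _) 0 l)
  have h0 : ∀ (C : Type) [Fintype C] (x : ℝ), ‖(0 : ℝ → C → ℝ) x‖ ≤ c := fun C _ x => by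
    simpa using hc.le
  have hAc : Continuous A := by
    refine Continuous.comp ((cp_cont (P := Unit) (k := fun _ => kk (1, ω)) (fun i =>
      (hψ i).ext_cont (T := fun _ : Unit => T (1, ω) i) (by simp only [T, shear]; fun_prop)
        fun _ v => (hT _ i v).trans hc1) (l + 1) j).comp (Continuous.prodMk_right ())) ?_
    exact ((hψ l).ext_cont (T := fun _ : Unit => shear U (0 : ℝ → C₂ → ℝ))
      (by simp only [U, shear, Pi.zero_apply]; fun_prop) fun _ v => (shear_le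
        (fun _ => WW_le hc.le _ _ _ _) (h0 _) v).trans hc1).comp (Continuous.prodMk_right ())
  have hsp : ∀ a, k (update ω (l, m) a) =
      A ∘ ext (ψ l) (lev (c / 2 / 2 ^ m) (ρ m) (I m) a) ∘ H := fun a => by
    have e1 : ∀ i, i ≠ l → kk (1, update ω (l, m) a) i = kk (1, ω) i := fun i hi => by
      simp only [kk, T, update_of_ne fun k : (i, _) = (l, m) => hi (Prod.ext_iff.1 k).1]
    have e2 : ∀ {Z : Type} (g : (ℤ → C₂ → ℝ) × (ℤ → C₁ → ℝ) → Z),
        (fun i => g (update ω (l, m) a (l, i))) = update (fun i => g (ω (l, i))) m (g a) := by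
      intro Z g
      funext i
      by_cases hi : i = m
      · rw [hi, update_self, update_self]
      · rw [update_of_ne hi, update_of_ne fun k => hi (Prod.ext_iff.1 k).2]
    have e3 : T (1, update ω (l, m) a) l =
        shear U 0 ∘ lev (c / 2 / 2 ^ m) (ρ m) (I m) a ∘ shear 0 W := by
      simp only [T, e2 Prod.fst, e2 Prod.snd, Icc.coe_one, one_smul, WW_update hc.le ρ I _ m a.1,
        WW_update hc.le ρ I _ m a.2]
      exact shear_split _ _ _ _
    show cp (kk (1, update ω (l, m) a)) 0 (l + j + 1) = _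
    rw [show l + j + 1 = l + 1 + j by ring, cp_add, cp, zero_add, zero_add,
      cp_congr (j := j) fun i _ => e1 _ (by omega), cp_congr (j := l) fun i _ => e1 _ (by omega)]
    simp only [kk, e3, (hψ l).ext_comp]
    rfl
  have hpt : ∀ p ∈ ψ l '' ball 0 1, ∃ v, ‖v‖ ≤ 3 ∧ surjInv hHb.2 (ψ l v) = p := fun p hp => by
    obtain ⟨v, hv, e⟩ := h2 l hl p hp (cp (kk (1, ω)) 0 l p) ((cp_dist
      (fun i hi => hd _ i (hi.trans hl)) p).trans (by gcongr))
    refine ⟨shear 0 W v, ?_, hHb.1 ?_⟩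
    · linarith [norm_sub_norm_le (shear (0 : ℝ → C₁ → ℝ) W v) v, mem_ball_zero_iff.1 hv,
        shear_le (h0 C₁) (fun x => WW_le hc.le ρ I (update (fun i => (ω (l, i)).1) m 0) x) v]
    · rw [surjInv_eq hHb.2, hH, comp_apply, ← e, (hψ l).ext_apply]
  obtain ⟨v, hv, rfl⟩ := hpt p hp
  obtain ⟨v', hv', rfl⟩ := hpt p' hp'
  refine le_trans (measure_mono ?_) (hco m (fun v => f (surjInv hHb.2 (ψ l v)))
    (γ ∘ A ∘ ψ l) (hγ.comp (hAc.comp (hψ l).emb.continuous)) v v' hv hv' hpp)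
  intro a ha z z'
  have := ha (surjInv hHb.2 (ψ l z)) (surjInv hHb.2 (ψ l z'))
  simpa only [hsp, comp_apply, surjInv_eq hHb.2, (hψ l).ext_apply] using this

theorem exists_modulus {M : Type} [MetricSpace M] [CompactSpace M] {ι : Type} {F : ι → M → M}
    (hF : Equicontinuous F) {t : ℝ} (ht : 0 < t) : ∀ᶠ s in 𝓝[>] (0 : ℝ), ∀ i, ∀ b : M → M,
      (∀ z, dist (b z) (F i z) < t / 3) → ∀ h : M → M, Pr s t (b ∘ h) h := by
  obtain ⟨δ, hδ, h1⟩ := Metric.uniformEquicontinuous_iff.1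
    (CompactSpace.uniformEquicontinuous_of_equicontinuous hF) (t / 3) (by positivity)
  filter_upwards [mem_nhdsWithin_of_mem_nhds (ge_mem_nhds hδ)] with s hs i b hb h z z' k
  refine le_trans hs (not_lt.1 fun k1 => ?_)
  have k4 := dist_triangle4_right (b (h z)) (b (h z')) (F i (h z)) (F i (h z'))
  simp only [comp_apply] at k
  linarith [h1 _ _ k1 i, hb (h z), hb (h z')]

theorem hull {M : Type} [MetricSpace M] [CompactSpace M] [Nonempty M] [Infinite M]
    (h : ∀ m : M, ∃ ψ : (C₁ → ℝ) × (C₂ → ℝ) → M, Ch ψ ∧ ψ 0 = m) (G : Set C(M, M))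
    (h1 : ∀ f ∈ G, Bijective f)
    (h2 : ∀ f : C(M, M), (f.HomotopicWith (ContinuousMap.id M) fun g => Bijective g) → f ∈ G)
    [MeasurableSpace G] [BorelSpace G] (K : ℕ → Set G)
    (hK : ∀ j, Equicontinuous fun (f : K j) (x : M) => (f : C(M, M)) x) :
    ∃ B : Set G, IsGδ B ∧ Dense B ∧ (∀ j, K j ⊆ B) ∧
      ∃ μ : Measure G, IsProbabilityMeasure μ ∧ ∀ ε > 0, ∃ U, IsOpen U ∧ B ⊆ U ∧ ∀ g h : G,
        μ {x : G | ∃ b ∈ U, (x : C(M, M)) = (g : C(M, M)).comp ((b : C(M, M)).comp h)} ≤ ε := by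
  have : Nonempty G := ⟨⟨_, h2 _ (.refl _ bijective_id)⟩⟩
  obtain ⟨d, hd⟩ := TopologicalSpace.exists_dense_seq G
  obtain ⟨ε, hε, hsum⟩ := ENNReal.exists_pos_sum_of_countable one_ne_zero ℕ
  obtain ⟨t, ht, hr⟩ := exists_random h (ε := fun m => ε m) fun m => by exact_mod_cast (hε m).ne'
  set K' : ℕ → Set G := fun m => ⋃ j ∈ Iic m, insert (d j) (K j) with hK'
  have hc : ∀ m, ∃ s > 0, ∀ y ∈ K' m, ∀ b : M → M, (∀ z, dist (b z) (y.1 z) < t m / 3) →
      ∀ h : M → M, Pr s (t m) (b ∘ h) h := fun m => by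
    obtain ⟨s, k1, k2⟩ := (((finite_Iic m).eventually_all.2 fun j _ =>
      (exists_modulus (hK j) (ht m)).and (exists_modulus (F := fun _ : Unit => (d j).1)
        (equicontinuous_unique.2 (d j).1.continuous) (ht m))).and self_mem_nhdsWithin).exists
    refine ⟨s, k2, fun y hy => ?_⟩
    obtain ⟨j, hj, rfl | hy⟩ := mem_iUnion₂.1 hy
    · exact (k1 j hj).2 ()
    · exact (k1 j hj).1 ⟨y, hy⟩
  choose s hs hm using hc
  obtain ⟨P, _, k, hk, hkG, hP⟩ := hr s hs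
  set U : ℕ → Set G := fun N => ⋃ m, thickening (t (m + N) / 3) (K' (m + N)) with hU
  have hUo : ∀ N, IsOpen (U N) := fun N => isOpen_iUnion fun m => isOpen_thickening
  have hsub : ∀ j, insert (d j) (K j) ⊆ ⋂ N, U N := fun j x hx => mem_iInter.2 fun N =>
    mem_iUnion.2 ⟨j, self_subset_thickening (by linarith [ht (j + N)]) _
      (mem_biUnion (show j ∈ Iic (j + N) from mem_Iic.2 (Nat.le_add_right j N)) hx)⟩
  have : BorelSpace ((ℤ → C₂ → ℝ) × (ℤ → C₁ → ℝ)) := Prod.borelSpace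
  have : BorelSpace (ℕ × ℕ → (ℤ → C₂ → ℝ) × (ℤ → C₁ → ℝ)) := Pi.borelSpace
  have hk' : Measurable fun ω => (⟨k ω, h2 _ (hkG ω)⟩ : G) :=
    (hk.subtype_mk _).measurable
  refine ⟨⋂ N, U N, .iInter_of_isOpen hUo,
    Dense.mono ?_ hd, fun j => (subset_insert _ _).trans (hsub j), P.map _,
    Measure.isProbabilityMeasure_map hk'.aemeasurable, fun δ hδ => ?_⟩
  · rintro _ ⟨j, rfl⟩
    exact hsub j (mem_insert _ _)
  obtain ⟨N, hN⟩ := ((ENNReal.tendsto_sum_nat_add (fun m => (ε m : ℝ≥0∞))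
    (ne_top_of_lt hsum)).eventually (ge_mem_nhds hδ)).exists
  refine ⟨U N, hUo N, iInter_subset _ N, fun g f => ?_⟩
  let e : M ≃ₜ M := Continuous.homeoOfEquivCompactToT2 (f := Equiv.ofBijective _ (h1 _ g.2))
    g.1.continuous
  refine (measure_mono (t := ⋃ m, {x | Pr (s (m + N)) (t (m + N)) (e.symm ∘ x.1) f.1}) ?_).trans
    ((measure_iUnion_le _).trans ((ENNReal.tsum_le_tsum fun m => ?_).trans hN))
  · rintro x ⟨b, hb, hx⟩
    obtain ⟨m, k1⟩ := mem_iUnion.1 hb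
    obtain ⟨y, hy, k2⟩ := mem_thickening_iff.1 k1
    refine mem_iUnion.2 ⟨m, ?_⟩
    have : e.symm ∘ x.1 = b.1 ∘ f.1 := funext fun z => by
      rw [hx]
      exact e.symm_apply_apply _
    rw [mem_ofPred_eq, this]
    exact hm _ y hy b.1 (fun z => (ContinuousMap.dist_apply_le_dist z).trans_lt k2) f.1
  · rw [Measure.map_apply hk' (closed_Pr (f := fun x : G => e.symm ∘ x.1) (h := fun _ => f.1) _ _
      (fun z => e.symm.continuous.comp ((continuous_eval_const z).comp continuous_subtype_val))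
      fun _ => continuous_const).measurableSet]
    exact hP _ f.1 e.symm f.1.continuous e.symm.surjective

end Pool.Agent.MP_4045d2_lc.Sc
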